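import Pool.Agent.W715.BC.Defs

set_option autoImplicit false

open Classical

namespace Pool.Agent.W370.BC

open Pool.Agent.W715.BC

variable {A B : Type} [Fintype A] [Fintype B] (r : A → B → Prop)

noncomputable def YY {m : ℕ} (w : Fin m → B) : Finset A :=
  Finset.univ.filter (fun a => ∀ l, r a (w l))

noncomputable def CN {k : ℕ} (Q : Fin k → A) : Finset B :=
  Finset.univ.filter (fun b => ∀ i, r (Q i) b)

lemma card_CN {k : ℕ} (Q : Fin k → A) : (CN r Q).card = codeg r Q := rfl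

lemma count0 {k m : ℕ} (H : Finset (Fin k → A)) (W : Finset (Fin m → B)) :
    ∑ w ∈ W, (H.filter (fun Q => ∀ i, Q i ∈ YY r w)).card =
      ∑ Q ∈ H, (W.filter (fun w => ∀ l, w l ∈ CN r Q)).card := by
  have h := Finset.sum_card_bipartiteAbove_eq_sum_card_bipartiteBelow (s := W) (t := H)
    (fun (w : Fin m → B) (Q : Fin k → A) => ∀ i l, r (Q i) (w l))
  have e1 : ∀ w ∈ W, (H.filter (fun Q => ∀ i, Q i ∈ YY r w)).card =
      (Finset.bipartiteAbove (fun (w : Fin m → B) (Q : Fin k → A) => ∀ i l, r (Q i) (w l)) H w).card := by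
    intro w _
    unfold Finset.bipartiteAbove
    congr 1
    ext Q
    simp [YY]
  have e2 : ∀ Q ∈ H, (W.filter (fun w => ∀ l, w l ∈ CN r Q)).card =
      (Finset.bipartiteBelow (fun (w : Fin m → B) (Q : Fin k → A) => ∀ i l, r (Q i) (w l)) W Q).card := by
    intro Q _
    unfold Finset.bipartiteBelow
    congr 1
    ext w
    simp only [Finset.mem_filter, CN, Finset.mem_univ, true_and]
    constructor
    · rintro ⟨h1, h2⟩; exact ⟨h1, fun i l => h2 l i⟩
    · rintro ⟨h1, h2⟩; exact ⟨h1, fun i l => h2 l i⟩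
  rw [Finset.sum_congr rfl e1, Finset.sum_congr rfl e2]
  exact h

lemma card_all {m : ℕ} {X : Type} [Fintype X] (S : Finset X) :
    ((Finset.univ : Finset (Fin m → X)).filter (fun w => ∀ l, w l ∈ S)).card = S.card ^ m := by
  have : (Finset.univ : Finset (Fin m → X)).filter (fun w => ∀ l, w l ∈ S) =
      Fintype.piFinset (fun _ : Fin m => S) := by
    ext w; simp [Fintype.mem_piFinset]
  rw [this, Fintype.card_piFinset_const]

lemma count1 {k : ℕ} (m : ℕ) (H : Finset (Fin k → A)) :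
    ∑ w : Fin m → B, (H.filter (fun Q => ∀ i, Q i ∈ YY r w)).card =
      ∑ Q ∈ H, (codeg r Q) ^ m := by
  rw [count0]
  refine Finset.sum_congr rfl (fun Q _ => ?_)
  rw [card_all, card_CN]

lemma count2 (k m : ℕ) :
    ∑ w : Fin m → B, (YY r w).card ^ k = ∑ Q : Fin k → A, (codeg r Q) ^ m := by
  rw [← count1 r m Finset.univ]
  refine Finset.sum_congr rfl (fun w _ => ?_)
  rw [card_all]

lemma noninj_pair {m : ℕ} {X : Type} [Fintype X] (S : Finset X) (i j : Fin m) (hij : i ≠ j) :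
    ((Finset.univ : Finset (Fin m → X)).filter (fun w => (∀ l, w l ∈ S) ∧ w i = w j)).card ≤
      S.card ^ (m - 1) := by
  have h1 : (Fintype.piFinset (fun _ : {l : Fin m // l ≠ i} => S)).card = S.card ^ (m - 1) := by
    rw [Fintype.card_piFinset, Finset.prod_const, Finset.card_univ]
    congr 1
    rw [Fintype.card_subtype_compl, Fintype.card_fin, Fintype.card_subtype_eq]
  rw [← h1]
  refine Finset.card_le_card_of_injOn (fun w l => w l.1) ?_ ?_
  · intro w hw
    simp only [Finset.coe_filter, Set.mem_ofPred_eq] at hw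
    simp only [Finset.mem_coe, Fintype.mem_piFinset]
    intro l; exact hw.2.1 l.1
  · intro w hw w' hw' h
    simp only [Finset.coe_filter, Set.mem_ofPred_eq] at hw hw'
    have hne : ∀ l, l ≠ i → w l = w' l := fun l hl => congrFun h ⟨l, hl⟩
    funext l
    by_cases hl : l = i
    · subst hl
      rw [hw.2.2, hw'.2.2]
      exact hne j (Ne.symm hij)
    · exact hne l hl

lemma noninj_card {m : ℕ} {X : Type} [Fintype X] (S : Finset X) :
    ((Finset.univ : Finset (Fin m → X)).filter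
      (fun w => (∀ l, w l ∈ S) ∧ ¬ Function.Injective w)).card ≤ m ^ 2 * S.card ^ (m - 1) := by
  have hsub : (Finset.univ : Finset (Fin m → X)).filter
      (fun w => (∀ l, w l ∈ S) ∧ ¬ Function.Injective w) ⊆
      ((Finset.univ : Finset (Fin m × Fin m)).filter (fun p => p.1 ≠ p.2)).biUnion
        (fun p => (Finset.univ : Finset (Fin m → X)).filter
          (fun w => (∀ l, w l ∈ S) ∧ w p.1 = w p.2)) := by
    intro w hw
    simp only [Finset.mem_filter, Finset.mem_univ, true_and] at hw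
    obtain ⟨h1, h2⟩ := hw
    simp only [Function.Injective, not_forall] at h2
    obtain ⟨i, j, h3, h4⟩ := h2
    simp only [Finset.mem_biUnion, Finset.mem_filter, Finset.mem_univ, true_and]
    exact ⟨(i, j), h4, h1, h3⟩
  refine (Finset.card_le_card hsub).trans (Finset.card_biUnion_le.trans ?_)
  refine (Finset.sum_le_card_nsmul _ _ (S.card ^ (m - 1)) ?_).trans ?_
  · intro p hp
    simp only [Finset.mem_filter, Finset.mem_univ, true_and] at hp
    exact noninj_pair S p.1 p.2 hp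
  · rw [smul_eq_mul]
    refine Nat.mul_le_mul_right _ ?_
    refine (Finset.card_filter_le _ _).trans ?_
    rw [Finset.card_univ, Fintype.card_prod, Fintype.card_fin, sq]

lemma noninj_quarter {m : ℕ} (hm : 1 ≤ m) {X : Type} [Fintype X] (S : Finset X)
    (hS : 4 * m ^ 2 ≤ S.card) :
    4 * ((Finset.univ : Finset (Fin m → X)).filter
      (fun w => (∀ l, w l ∈ S) ∧ ¬ Function.Injective w)).card ≤ S.card ^ m := by
  have h1 := noninj_card (m := m) S
  have h2 : S.card ^ m = S.card * S.card ^ (m - 1) := by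
    conv_lhs => rw [show m = (m - 1) + 1 by omega]
    rw [pow_succ, mul_comm]
  rw [h2]
  calc _ ≤ 4 * (m ^ 2 * S.card ^ (m - 1)) := Nat.mul_le_mul_left _ h1
    _ = (4 * m ^ 2) * S.card ^ (m - 1) := by ring
    _ ≤ _ := Nat.mul_le_mul_right _ hS

/-- number of stars as a sum of codegrees -/
lemma NH_eq (q L : ℕ) : NH r q L =
    ∑ Q ∈ (Finset.univ : Finset (Fin (q + 1) → A)).filter (fun Q => L ≤ codeg r Q), codeg r Q := by
  unfold NH
  have h := Finset.sum_card_bipartiteAbove_eq_sum_card_bipartiteBelow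
    (s := (Finset.univ : Finset (Fin (q + 1) → A)).filter (fun Q => L ≤ codeg r Q))
    (t := (Finset.univ : Finset B)) (fun Q b => ∀ i, r (Q i) b)
  have e1 : ∀ Q ∈ (Finset.univ : Finset (Fin (q + 1) → A)).filter (fun Q => L ≤ codeg r Q),
      codeg r Q = (Finset.bipartiteAbove (fun (Q : Fin (q + 1) → A) b => ∀ i, r (Q i) b)
        Finset.univ Q).card := by
    intro Q _
    rfl
  rw [Finset.sum_congr rfl e1]
  rw [Finset.card_filter, ← Finset.univ_product_univ, Finset.sum_product_right]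
  rw [Finset.sum_filter]
  refine Finset.sum_congr rfl (fun Q _ => ?_)
  by_cases hQ : L ≤ codeg r Q
  · simp only [hQ, and_true, if_true]
    rw [Finset.bipartiteAbove, Finset.card_filter]
  · simp [hQ]

lemma sum_codeg (k : ℕ) : ∑ Q : Fin k → A, codeg r Q = ∑ b : B, (deg2 r b) ^ k := by
  have h := count2 r k 1
  simp only [pow_one] at h
  rw [← h]
  let e : (Fin 1 → B) ≃ B := Equiv.funUnique (Fin 1) B
  refine Fintype.sum_equiv e _ _ (fun w => ?_)
  congr 1
  unfold deg2 YY
  congr 1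
  ext a
  simp [e]

lemma sum_Y (m : ℕ) : ∑ w : Fin m → B, (YY r w).card = ∑ a : A, (deg1 r a) ^ m := by
  have h := count2 r 1 m
  simp only [pow_one] at h
  rw [h]
  let e : (Fin 1 → A) ≃ A := Equiv.funUnique (Fin 1) A
  refine Fintype.sum_equiv e _ _ (fun w => ?_)
  congr 1
  unfold deg1 codeg
  congr 1
  ext a
  simp [e]

lemma double : ∑ a : A, deg1 r a = ∑ b : B, deg2 r b := by
  have h := sum_Y r 1
  simp only [pow_one] at h
  rw [← h]
  let e : (Fin 1 → B) ≃ B := Equiv.funUnique (Fin 1) B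
  refine Fintype.sum_equiv e _ _ (fun w => ?_)
  unfold deg2 YY
  congr 1
  ext a
  simp [e]


theorem BC_HVY (hE : S_EMB) : S_HVY := by
  intro s q s' t K η hq hs' hK hη
  set k := q + 1 with hk
  set sg := max s' 1 with hsg
  set L := LL s t s' with hL
  set M : ℝ := 1 + (K : ℝ) ^ k / η with hM
  have hM1 : 1 ≤ M := by
    have : 0 ≤ (K : ℝ) ^ k / η := by positivity
    linarith
  have hM0 : 0 < M := by linarith
  obtain ⟨N0, hN0⟩ := hE s q s' t (1 / (2 * M)) (by positivity)
  set N1 := max N0 1 with hN1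
  have hN1' : 1 ≤ N1 := le_max_right _ _
  have hsg1 : 1 ≤ sg := le_max_right _ _
  have hLsg : 4 * sg ^ 2 ≤ L := by
    have h1 : sg ≤ s' + 1 := by omega
    have h2 : sg ^ 2 ≤ (s' + 1) ^ 2 := Nat.pow_le_pow_left h1 2
    simp only [hL, LL]
    nlinarith
  have hL1 : 1 ≤ L := by
    have : 1 ≤ sg ^ 2 := Nat.one_le_pow _ _ hsg1
    omega
  refine ⟨max 1 (4 * M * N1 * K), ?_⟩
  intro A B _ _ _ r D hreg hCD hCN hNH
  have hD1 : (1 : ℝ) ≤ D := le_trans (le_max_left _ _) hCD
  have hD0 : 0 < D := by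
    have : (0 : ℝ) < D := by linarith
    exact_mod_cast this
  -- basic sizes
  set a := (Fintype.card A : ℝ) with ha
  set b := (Fintype.card B : ℝ) with hb
  have hA0 : 0 < Fintype.card A := Fintype.card_pos
  have ha0 : 0 < a := by rw [ha]; exact_mod_cast hA0
  have hB0 : 0 < Fintype.card B := by
    obtain ⟨x⟩ := (inferInstance : Nonempty A)
    have h1 := hreg.la x
    have h2 : 0 < deg1 r x := by omega
    have h3 : deg1 r x ≤ Fintype.card B := by
      unfold deg1
      exact Finset.card_le_univ _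
    omega
  have hb0 : 0 < b := by rw [hb]; exact_mod_cast hB0
  have hedge : (Fintype.card B) * D ≤ (Fintype.card A) * (K * D) := by
    calc (Fintype.card B) * D = ∑ _b : B, D := by simp
      _ ≤ ∑ x : B, deg2 r x := Finset.sum_le_sum (fun x _ => hreg.lb x)
      _ = ∑ x : A, deg1 r x := (double r).symm
      _ ≤ ∑ _x : A, K * D := Finset.sum_le_sum (fun x _ => hreg.ua x)
      _ = (Fintype.card A) * (K * D) := by simp
  have hbKa : b ≤ K * a := by
    have h1 : (Fintype.card B) ≤ (Fintype.card A) * K := by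
      have : (Fintype.card B) * D ≤ ((Fintype.card A) * K) * D := by
        calc _ ≤ _ := hedge
          _ = _ := by ring
      exact Nat.le_of_mul_le_mul_right this hD0
    have h2 : (b : ℝ) ≤ a * K := by rw [ha, hb]; exact_mod_cast h1
    linarith
  -- the heavy tuples
  set HS := (Finset.univ : Finset (Fin k → A)).filter (fun Q => L ≤ codeg r Q) with hHS
  set h : (Fin sg → B) → ℕ := fun w => (HS.filter (fun Q => ∀ i, Q i ∈ YY r w)).card with hh
  have hsumh : ∑ w, h w = ∑ Q ∈ HS, (codeg r Q) ^ sg := count1 r sg HS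
  have hsumY : ∑ w : Fin sg → B, (YY r w).card ^ k = ∑ Q : Fin k → A, (codeg r Q) ^ sg :=
    count2 r k sg
  have hNHe : NH r q L = ∑ Q ∈ HS, codeg r Q := NH_eq r q L
  -- lower bound for heavy
  have hlow : L ^ (sg - 1) * NH r q L ≤ ∑ Q ∈ HS, (codeg r Q) ^ sg := by
    rw [hNHe, Finset.mul_sum]
    refine Finset.sum_le_sum (fun Q hQ => ?_)
    have hQ' : L ≤ codeg r Q := by simpa [hHS] using hQ
    calc L ^ (sg - 1) * codeg r Q ≤ (codeg r Q) ^ (sg - 1) * codeg r Q :=
          Nat.mul_le_mul_right _ (Nat.pow_le_pow_left hQ' _)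
      _ = (codeg r Q) ^ sg := by
          rw [← pow_succ]; congr 1; omega
  -- upper bound for light
  have hlight : ∑ Q ∈ HSᶜ, (codeg r Q) ^ sg ≤ L ^ (sg - 1) * (Fintype.card B * (K * D) ^ k) := by
    calc ∑ Q ∈ HSᶜ, (codeg r Q) ^ sg ≤ ∑ Q ∈ HSᶜ, L ^ (sg - 1) * codeg r Q := by
          refine Finset.sum_le_sum (fun Q hQ => ?_)
          have hQ' : codeg r Q < L := by simpa [hHS] using hQ
          calc (codeg r Q) ^ sg = (codeg r Q) ^ (sg - 1) * codeg r Q := by
                rw [← pow_succ]; congr 1; omega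
            _ ≤ L ^ (sg - 1) * codeg r Q := Nat.mul_le_mul_right _ (Nat.pow_le_pow_left hQ'.le _)
      _ ≤ ∑ Q : Fin k → A, L ^ (sg - 1) * codeg r Q :=
          Finset.sum_le_sum_of_subset (Finset.subset_univ _)
      _ = L ^ (sg - 1) * ∑ Q : Fin k → A, codeg r Q := by rw [Finset.mul_sum]
      _ = L ^ (sg - 1) * ∑ x : B, (deg2 r x) ^ k := by rw [sum_codeg]
      _ ≤ L ^ (sg - 1) * ∑ _x : B, (K * D) ^ k := by
          refine Nat.mul_le_mul_left _ (Finset.sum_le_sum (fun x _ => Nat.pow_le_pow_left (hreg.ub x) _))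
      _ = _ := by simp
  have hsplit : ∑ Q : Fin k → A, (codeg r Q) ^ sg =
      ∑ Q ∈ HS, (codeg r Q) ^ sg + ∑ Q ∈ HSᶜ, (codeg r Q) ^ sg :=
    (Finset.sum_add_sum_compl HS _).symm
  set H : ℝ := ((∑ w, h w : ℕ) : ℝ) with hH
  have hHlow : (L : ℝ) ^ (sg - 1) * (η * b * (D : ℝ) ^ k) ≤ H := by
    have h1 : (L : ℝ) ^ (sg - 1) * (NH r q L : ℝ) ≤ H := by
      rw [hH, hsumh]; exact_mod_cast hlow
    refine le_trans ?_ h1
    exact mul_le_mul_of_nonneg_left hNH (by positivity)
  have htot : ((∑ w : Fin sg → B, (YY r w).card ^ k : ℕ) : ℝ) ≤ M * H := by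
    rw [hsumY, hsplit]
    push_cast
    have h1 : ((∑ Q ∈ HSᶜ, (codeg r Q) ^ sg : ℕ) : ℝ) ≤
        (L : ℝ) ^ (sg - 1) * (b * ((K : ℝ) * D) ^ k) := by rw [hb]; exact_mod_cast hlight
    have h2 : ((∑ Q ∈ HS, (codeg r Q) ^ sg : ℕ) : ℝ) = H := by rw [hH, hsumh]
    push_cast at h1 h2
    rw [h2, hM, add_mul, one_mul]
    refine add_le_add le_rfl (h1.trans ?_)
    calc (L : ℝ) ^ (sg - 1) * (b * ((K : ℝ) * D) ^ k)
        = ((K : ℝ) ^ k / η) * ((L : ℝ) ^ (sg - 1) * (η * b * (D : ℝ) ^ k)) := by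
          rw [mul_pow]; field_simp
      _ ≤ _ := mul_le_mul_of_nonneg_left hHlow (by positivity)
  -- power mean
  have hsumYlow : a * (D : ℝ) ^ sg ≤ ((∑ w : Fin sg → B, (YY r w).card : ℕ) : ℝ) := by
    rw [sum_Y]
    have h1 : (Fintype.card A) * D ^ sg ≤ ∑ x : A, (deg1 r x) ^ sg := by
      calc (Fintype.card A) * D ^ sg = ∑ _x : A, D ^ sg := by simp
        _ ≤ _ := Finset.sum_le_sum (fun x _ => Nat.pow_le_pow_left (hreg.la x) _)
    rw [ha]; exact_mod_cast h1
  set W : ℝ := b ^ sg with hW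
  have hW0 : 0 < W := by positivity
  have hpm : ((∑ w : Fin sg → B, (YY r w).card : ℕ) : ℝ) ^ (q + 1) ≤
      W ^ q * ((∑ w : Fin sg → B, (YY r w).card ^ k : ℕ) : ℝ) := by
    have h1 := pow_sum_le_card_mul_sum_pow (s := (Finset.univ : Finset (Fin sg → B)))
      (f := fun w => ((YY r w).card : ℝ)) (fun _ _ => by positivity) q
    rw [Finset.card_univ, Fintype.card_fun, Fintype.card_fin] at h1
    push_cast at h1 ⊢
    exact h1
  have hkey : 4 * M * N1 * W ≤ a * (D : ℝ) ^ sg := by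
    have h0 : W = b * b ^ (sg - 1) := by
      rw [hW, ← pow_succ']; congr 1; omega
    have h1 : b ^ (sg - 1) ≤ (a + b) ^ (sg - 1) :=
      pow_le_pow_left₀ hb0.le (by linarith) _
    have hCN' : max 1 (4 * M * N1 * K) * (a + b) ^ (sg - 1) ≤ (D : ℝ) ^ sg := by
      have := hCN
      push_cast at this
      exact this
    have h2 : (4 * M * N1 * K) * (a + b) ^ (sg - 1) ≤ (D : ℝ) ^ sg :=
      le_trans (mul_le_mul_of_nonneg_right (le_max_right _ _) (by positivity)) hCN'
    calc 4 * M * N1 * W = (4 * M * N1) * (b * b ^ (sg - 1)) := by rw [h0]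
      _ ≤ (4 * M * N1) * ((K * a) * (a + b) ^ (sg - 1)) := by gcongr
      _ = a * ((4 * M * N1 * K) * (a + b) ^ (sg - 1)) := by ring
      _ ≤ a * (D : ℝ) ^ sg := mul_le_mul_of_nonneg_left h2 ha0.le
  set SY : ℝ := ((∑ w : Fin sg → B, (YY r w).card ^ k : ℕ) : ℝ) with hSY
  have hSYlow : 4 * M * (N1 : ℝ) ^ k * W ≤ SY := by
    have h1 : (4 * M * N1 * W) ^ (q + 1) ≤ W ^ q * SY :=
      le_trans (pow_le_pow_left₀ (by positivity) (hkey.trans hsumYlow) _) hpm
    have h2 : (4 * M * N1 * W) ^ (q + 1) = W ^ q * ((4 * M) ^ (q + 1) * (N1 : ℝ) ^ (q + 1) * W) := by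
      rw [mul_pow, mul_pow, pow_succ W q]; ring
    rw [h2] at h1
    have h3 : (4 * M) ^ (q + 1) * (N1 : ℝ) ^ (q + 1) * W ≤ SY :=
      le_of_mul_le_mul_left h1 (by positivity)
    have h4 : 4 * M ≤ (4 * M) ^ (q + 1) := by
      have h5 : 1 ≤ 4 * M := by linarith
      calc 4 * M = (4 * M) ^ 1 := (pow_one _).symm
        _ ≤ _ := pow_le_pow_right₀ h5 (by omega)
    calc 4 * M * (N1 : ℝ) ^ k * W ≤ (4 * M) ^ (q + 1) * (N1 : ℝ) ^ (q + 1) * W := by
          rw [hk]; gcongr
      _ ≤ SY := h3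
  have hHW : 4 * (N1 : ℝ) ^ k * W ≤ H := by
    have h1 : M * (4 * (N1 : ℝ) ^ k * W) ≤ M * H := by
      calc M * (4 * (N1 : ℝ) ^ k * W) = 4 * M * (N1 : ℝ) ^ k * W := by ring
        _ ≤ SY := hSYlow
        _ ≤ M * H := htot
    exact le_of_mul_le_mul_left h1 hM0
  have hN1r : (0 : ℝ) < N1 := by exact_mod_cast hN1'
  have hH0 : 0 < H := lt_of_lt_of_le (by positivity) hHW
  -- noninjective tuples
  set NI := (Finset.univ : Finset (Fin sg → B)).filter (fun w => ¬ Function.Injective w) with hNI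
  have hnon : 4 * ∑ w ∈ NI, h w ≤ ∑ w, h w := by
    have h1 : ∑ w ∈ NI, h w = ∑ Q ∈ HS, (NI.filter (fun w => ∀ l, w l ∈ CN r Q)).card :=
      count0 r HS NI
    rw [h1, hsumh, Finset.mul_sum]
    refine Finset.sum_le_sum (fun Q hQ => ?_)
    have hQ' : L ≤ codeg r Q := by simpa [hHS] using hQ
    have h2 := noninj_quarter hsg1 (CN r Q) (by rw [card_CN]; exact hLsg.trans hQ')
    rw [card_CN] at h2
    refine le_trans (le_of_eq ?_) h2
    congr 2
    ext w
    simp only [hNI, Finset.mem_filter, Finset.mem_univ, true_and]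
    exact and_comm
  -- small tuples
  set SM := (Finset.univ : Finset (Fin sg → B)).filter (fun w => (YY r w).card < N1) with hSM
  have hhle : ∀ w, h w ≤ (YY r w).card ^ k := by
    intro w
    calc h w ≤ ((Finset.univ : Finset (Fin k → A)).filter (fun Q => ∀ i, Q i ∈ YY r w)).card := by
          refine Finset.card_le_card (Finset.filter_subset_filter _ (Finset.subset_univ _))
      _ = _ := card_all _
  have hsm : ((∑ w ∈ SM, h w : ℕ) : ℝ) ≤ (N1 : ℝ) ^ k * W := by
    have h1 : ∑ w ∈ SM, h w ≤ (Fintype.card B) ^ sg * N1 ^ k := by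
      calc ∑ w ∈ SM, h w ≤ ∑ _w ∈ SM, N1 ^ k := by
            refine Finset.sum_le_sum (fun w hw => ?_)
            have hw' : (YY r w).card < N1 := by simpa [hSM] using hw
            exact (hhle w).trans (Nat.pow_le_pow_left hw'.le _)
        _ = SM.card * N1 ^ k := by simp
        _ ≤ _ := by
            refine Nat.mul_le_mul_right _ ?_
            calc SM.card ≤ Fintype.card (Fin sg → B) := Finset.card_le_univ _
              _ = _ := by rw [Fintype.card_fun, Fintype.card_fin]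
    have h2 : ((∑ w ∈ SM, h w : ℕ) : ℝ) ≤ b ^ sg * (N1 : ℝ) ^ k := by
      rw [hb]; exact_mod_cast h1
    rw [hW]; linarith
  set G := (Finset.univ : Finset (Fin sg → B)).filter
    (fun w => Function.Injective w ∧ N1 ≤ (YY r w).card) with hG
  have hcover : ∑ w, h w ≤ ∑ w ∈ G, h w + (∑ w ∈ NI, h w + ∑ w ∈ SM, h w) := by
    have h1 : (Finset.univ : Finset (Fin sg → B)) ⊆ G ∪ (NI ∪ SM) := by
      intro w _
      simp only [Finset.mem_union, hG, hNI, hSM, Finset.mem_filter, Finset.mem_univ, true_and]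
      by_cases h2 : Function.Injective w
      · by_cases h3 : N1 ≤ (YY r w).card
        · exact Or.inl ⟨h2, h3⟩
        · exact Or.inr (Or.inr (by omega))
      · exact Or.inr (Or.inl h2)
    calc ∑ w, h w ≤ ∑ w ∈ G ∪ (NI ∪ SM), h w := Finset.sum_le_sum_of_subset h1
      _ ≤ ∑ w ∈ G, h w + ∑ w ∈ NI ∪ SM, h w := by
          rw [← Finset.sum_union_inter]; omega
      _ ≤ _ := by
          have : ∑ w ∈ NI ∪ SM, h w ≤ ∑ w ∈ NI, h w + ∑ w ∈ SM, h w := by
            rw [← Finset.sum_union_inter]; omega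
          omega
  have hGlow : H / 2 ≤ ((∑ w ∈ G, h w : ℕ) : ℝ) := by
    have h1 : H ≤ ((∑ w ∈ G, h w : ℕ) : ℝ) +
        (((∑ w ∈ NI, h w : ℕ) : ℝ) + ((∑ w ∈ SM, h w : ℕ) : ℝ)) := by
      rw [hH]; exact_mod_cast hcover
    have h2 : 4 * ((∑ w ∈ NI, h w : ℕ) : ℝ) ≤ H := by
      rw [hH]; exact_mod_cast hnon
    have h3 : 4 * ((∑ w ∈ SM, h w : ℕ) : ℝ) ≤ H := by linarith
    linarith
  obtain ⟨w, hwG, hwh⟩ : ∃ w ∈ G, (1 / (2 * M)) * ((YY r w).card : ℝ) ^ k ≤ (h w : ℝ) := by
    by_contra hcon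
    push Not at hcon
    have hGne : G.Nonempty := by
      by_contra h1
      rw [Finset.not_nonempty_iff_eq_empty] at h1
      rw [h1] at hGlow
      simp at hGlow
      linarith
    have h1 : ((∑ w ∈ G, h w : ℕ) : ℝ) < ∑ w ∈ G, (1 / (2 * M)) * ((YY r w).card : ℝ) ^ k := by
      push_cast
      exact Finset.sum_lt_sum_of_nonempty hGne hcon
    have h2 : ∑ w ∈ G, (1 / (2 * M)) * ((YY r w).card : ℝ) ^ k ≤ (1 / (2 * M)) * SY := by
      rw [← Finset.mul_sum]
      refine mul_le_mul_of_nonneg_left ?_ (by positivity)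
      rw [hSY]
      push_cast
      exact Finset.sum_le_sum_of_subset_of_nonneg (Finset.subset_univ _) (fun _ _ _ => by positivity)
    have h3 : (1 / (2 * M)) * SY ≤ H / 2 := by
      calc (1 / (2 * M)) * SY ≤ (1 / (2 * M)) * (M * H) :=
            mul_le_mul_of_nonneg_left htot (by positivity)
        _ = H / 2 := by field_simp
    linarith
  simp only [hG, Finset.mem_filter, Finset.mem_univ, true_and] at hwG
  obtain ⟨hwinj, hwN⟩ := hwG
  have hs'sg : s' ≤ sg := le_max_left _ _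
  refine hN0 A B r (YY r w) (fun l => w (Fin.castLE hs'sg l)) ?_ ?_ ?_ ?_
  · intro l l' hl
    have := hwinj hl
    exact Fin.castLE_injective hs'sg this
  · intro y hy l
    simp only [YY, Finset.mem_filter, Finset.mem_univ, true_and] at hy
    exact hy _
  · exact (le_max_left _ _).trans hwN
  · refine hwh.trans ?_
    have h1 : h w ≤ ((Finset.univ : Finset (Fin (q + 1) → A)).filter (fun Q =>
        (∀ i, Q i ∈ YY r w) ∧ s * t + s' ≤ codeg r Q)).card := by
      refine Finset.card_le_card ?_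
      intro Q hQ
      simp only [hHS, Finset.mem_filter, Finset.mem_univ, true_and] at hQ ⊢
      refine ⟨hQ.2, le_trans ?_ hQ.1⟩
      simp only [hL, LL]
      omega
    exact_mod_cast h1

end Pool.Agent.W370.BC
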