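import Pool.Agent.W370.DMaxGrp

set_option autoImplicit false

/-!
The concrete family.  `AA k` is the ring of functions on the elementary abelian group `{1,-1}^k`, with
values in the integers modulo `2^(k+3)`, generated by the coordinate characters; `RR k` is the ring of
3 by 3 matrices over it.
-/

namespace Pool.Agent.W370

open SemidirectProduct
open Pool.Agent.H746R3 (Sq sq_mem comm_mem burnside burnside_lower eq_top_of_sup_Sq)
open scoped commutatorElement


section abs
variable {R E : Type} [Ring R] [Group E] (σ : E → R ≃+* R) (h1 : ∀ r, σ 1 r = r)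
  (hm : ∀ e e' r, σ (e * e') r = σ e (σ e' r))

theorem absMem (e : E) (u : NN R) : Units.map (σ e : R →* R) (u : Rˣ) ∈ NN R := by
  obtain ⟨f, hf⟩ := NN_spec u
  refine ⟨σ e f, ?_⟩
  change σ e ((u : Rˣ) : R) = _
  rw [hf, map_add, map_one, map_nsmul]

/-- action by ring automorphisms on the congruence subgroup -/
def absPhi : E →* MulAut (NN R) where
  toFun e :=
    { toFun := fun u => ⟨Units.map (σ e : R →* R) (u : Rˣ), absMem σ e u⟩
      invFun := fun u => ⟨Units.map (σ e⁻¹ : R →* R) (u : Rˣ), absMem σ e⁻¹ u⟩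
      left_inv := by
        intro u
        apply Subtype.ext
        apply Units.ext
        change σ e⁻¹ (σ e ((u : Rˣ) : R)) = _
        rw [← hm, inv_mul_cancel, h1]
      right_inv := by
        intro u
        apply Subtype.ext
        apply Units.ext
        change σ e (σ e⁻¹ ((u : Rˣ) : R)) = _
        rw [← hm, mul_inv_cancel, h1]
      map_mul' := by
        intro u v
        apply Subtype.ext
        apply Units.ext
        change σ e (((u : Rˣ) : R) * ((v : Rˣ) : R)) = _
        rw [map_mul]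
        rfl }
  map_one' := by
    ext1 u
    apply Subtype.ext
    apply Units.ext
    change σ 1 ((u : Rˣ) : R) = _
    rw [h1]
    rfl
  map_mul' e e' := by
    ext1 u
    apply Subtype.ext
    apply Units.ext
    change σ (e * e') ((u : Rˣ) : R) = _
    rw [hm]
    rfl

end abs

/-- the elementary abelian group -/
abbrev EE (k : ℕ) : Type := Fin k → ℤˣ

/-- all functions -/
abbrev CC (k : ℕ) : Type := EE k → ZMod (2 ^ (k + 3))

variable {k : ℕ}

/-- coordinate characters -/
def chi (i : Fin k) : CC k := fun x => (((x i : ℤˣ) : ℤ) : ZMod (2 ^ (k + 3)))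

/-- translation -/
def sh (e : EE k) : CC k ≃+* CC k where
  toFun f := fun x => f (x * e)
  invFun f := fun x => f (x * e⁻¹)
  left_inv f := by funext x; simp
  right_inv f := by funext x; simp
  map_mul' f g := rfl
  map_add' f g := rfl

theorem sh_apply (e : EE k) (f : CC k) (x : EE k) : sh e f x = f (x * e) := rfl

theorem sh_chi (e : EE k) (i : Fin k) : sh e (chi i) = ((e i : ℤˣ) : ℤ) • chi i := by
  funext x
  rw [sh_apply, Pi.smul_apply, zsmul_eq_mul]
  simp only [chi, Pi.mul_apply, Units.val_mul]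
  push_cast
  ring

theorem chi_sq (i : Fin k) : chi i * chi i = (1 : CC k) := by
  funext x
  rcases Int.units_eq_one_or (x i) with h | h <;> simp [chi, h]

/-- the subring generated by the characters -/
def AA (k : ℕ) : Subring (CC k) := Subring.closure (Set.range chi)

theorem chi_mem (i : Fin k) : chi i ∈ AA k := Subring.subset_closure ⟨i, rfl⟩

theorem sh_near (e : EE k) (f : CC k) (hf : f ∈ AA k) : ∃ g ∈ AA k, sh e f = f + 2 • g := by
  unfold AA at hf
  induction hf using Subring.closure_induction with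
  | mem x hx =>
    obtain ⟨i, rfl⟩ := hx
    rcases Int.units_eq_one_or (e i) with h | h
    · refine ⟨0, zero_mem _, ?_⟩
      rw [sh_chi, h]; simp
    · refine ⟨-chi i, neg_mem (chi_mem i), ?_⟩
      rw [sh_chi, h]
      simp only [Units.val_neg, Units.val_one, neg_smul, one_smul, smul_neg]
      abel
  | zero => exact ⟨0, zero_mem _, by simp⟩
  | one => exact ⟨0, zero_mem _, by simp⟩
  | add x y hx hy ihx ihy =>
    obtain ⟨g, hg, h1⟩ := ihx
    obtain ⟨g', hg', h2⟩ := ihy
    refine ⟨g + g', add_mem hg hg', ?_⟩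
    rw [map_add, h1, h2]; abel
  | neg x hx ihx =>
    obtain ⟨g, hg, h1⟩ := ihx
    refine ⟨-g, neg_mem hg, ?_⟩
    rw [map_neg, h1]; abel
  | mul x y hx hy ihx ihy =>
    obtain ⟨g, hg, h1⟩ := ihx
    obtain ⟨g', hg', h2⟩ := ihy
    have hx' : x ∈ AA k := hx
    have hy' : y ∈ AA k := hy
    refine ⟨x * g' + g * y + 2 • (g * g'), add_mem (add_mem (mul_mem hx' hg') (mul_mem hg hy'))
      (nsmul_mem (mul_mem hg hg') 2), ?_⟩
    rw [map_mul, h1, h2]
    noncomm_ring

theorem sh_mem (e : EE k) (f : CC k) (hf : f ∈ AA k) : sh e f ∈ AA k := by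
  obtain ⟨g, hg, h⟩ := sh_near e f hf
  rw [h]
  exact add_mem hf (nsmul_mem hg 2)

theorem sh_mul_apply (e e' : EE k) (f : CC k) : sh (e * e') f = sh e (sh e' f) := by
  funext x
  simp only [sh_apply]
  congr 1
  rw [mul_assoc]

theorem sh_one_apply (f : CC k) : sh (1 : EE k) f = f := by
  funext x
  simp only [sh_apply, mul_one]

/-- translation on the subring -/
def shA (e : EE k) : AA k ≃+* AA k where
  toFun f := ⟨sh e f, sh_mem e f f.2⟩
  invFun f := ⟨sh e⁻¹ f, sh_mem e⁻¹ f f.2⟩
  left_inv f := by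
    apply Subtype.ext
    change sh e⁻¹ (sh e (f : CC k)) = f
    rw [← sh_mul_apply, inv_mul_cancel, sh_one_apply]
  right_inv f := by
    apply Subtype.ext
    change sh e (sh e⁻¹ (f : CC k)) = f
    rw [← sh_mul_apply, mul_inv_cancel, sh_one_apply]
  map_mul' f g := Subtype.ext (map_mul (sh e) _ _)
  map_add' f g := Subtype.ext (map_add (sh e) _ _)

theorem shA_coe (e : EE k) (f : AA k) : ((shA e f : AA k) : CC k) = sh e f := rfl

/-- the matrix ring -/
abbrev RR (k : ℕ) : Type := Matrix (Fin 3) (Fin 3) (AA k)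

/-- the automorphisms of the matrix ring -/
def sig (e : EE k) : RR k ≃+* RR k := (shA e).mapMatrix

theorem sig_apply (e : EE k) (M : RR k) (i j : Fin 3) : sig e M i j = shA e (M i j) := rfl

theorem sig_mul_apply (e e' : EE k) (M : RR k) : sig (e * e') M = sig e (sig e' M) := by
  ext i j
  simp only [sig_apply]
  rw [shA_coe, shA_coe, shA_coe, sh_mul_apply]

theorem sig_one_apply (M : RR k) : sig (1 : EE k) M = M := by
  ext i j
  simp only [sig_apply]
  rw [shA_coe, sh_one_apply]

theorem sig_near (e : EE k) (M : RR k) : ∃ M', sig e M = M + 2 • M' := by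
  have h : ∀ i j, ∃ g : AA k, shA e (M i j) = M i j + 2 • g := by
    intro i j
    obtain ⟨g, hg, h⟩ := sh_near e (M i j) (M i j).2
    exact ⟨⟨g, hg⟩, Subtype.ext h⟩
  choose g hg using h
  refine ⟨Matrix.of g, ?_⟩
  funext i j
  rw [sig_apply, hg]
  rfl

/-- the action on the congruence subgroup -/
def phi (k : ℕ) : EE k →* MulAut (NN (RR k)) := absPhi sig sig_one_apply sig_mul_apply

theorem phi_apply (e : EE k) (u : NN (RR k)) :
    (((phi k e u : NN (RR k)) : (RR k)ˣ) : RR k) = sig e ((u : (RR k)ˣ) : RR k) := rfl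

theorem EE_sq (e : EE k) : e ^ 2 = 1 := by
  funext i
  rw [Pi.pow_apply, Pi.one_apply]
  exact Int.units_sq (e i)

theorem CC_kill (f : CC k) : (2 ^ (k + 3) : ℕ) • f = 0 := by
  funext x
  rw [Pi.smul_apply, nsmul_eq_mul, ZMod.natCast_self, zero_mul]
  rfl

theorem RR_kill (M : RR k) : (2 ^ (k + 3) : ℕ) • M = 0 := by
  ext i j x
  have := congrFun (CC_kill (M i j : CC k)) x
  exact this

instance : Finite (CC k) := by
  have : NeZero (2 ^ (k + 3)) := ⟨by positivity⟩
  infer_instance

instance : Finite (AA k) := inferInstance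

instance : Finite (RR k) := by
  unfold RR Matrix
  infer_instance

/-- the characters as elements of the subring -/
def chiA (i : Fin k) : AA k := ⟨chi i, chi_mem i⟩

theorem chiA_sq (i : Fin k) : chiA i * chiA i = (1 : AA k) := Subtype.ext (chi_sq i)

theorem shA_chiA (e : EE k) (i : Fin k) : shA e (chiA i) = ((e i : ℤˣ) : ℤ) • chiA i :=
  Subtype.ext (sh_chi e i)

/-- factors -/
def fac (c : Option ℕ) (i : Fin k) : AA k :=
  match c with
  | none => 1 + chiA i
  | some n => chiA i ^ n

theorem all_none_kill : (8 : ℕ) • (∏ i : Fin k, fac none i) = 0 := by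
  apply Subtype.ext
  funext x
  have h1 : ((∏ i : Fin k, (fac none i : AA k) : AA k) : CC k) x =
      ((∏ i : Fin k, (1 + ((x i : ℤˣ) : ℤ)) : ℤ) : ZMod (2 ^ (k + 3))) := by
    rw [SubmonoidClass.coe_finsetProd, Finset.prod_apply]
    push_cast
    apply Finset.prod_congr rfl
    intro i _
    simp [fac, chiA, chi]
  have h2 : ((2 : ℤ) ^ k) ∣ ∏ i : Fin k, (1 + ((x i : ℤˣ) : ℤ)) := by
    have h3 : ∏ i : Fin k, (2 : ℤ) = 2 ^ k := by simp
    rw [← h3]
    apply Finset.prod_dvd_prod_of_dvd
    intro i _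
    rcases Int.units_eq_one_or (x i) with h | h <;> simp [h]
  obtain ⟨c, hc⟩ := h2
  change (8 : ℕ) • (((∏ i : Fin k, (fac none i : AA k) : AA k) : CC k) x) = 0
  rw [h1, hc, nsmul_eq_mul]
  have h4 : ((8 : ℕ) : ZMod (2 ^ (k + 3))) * ((2 ^ k * c : ℤ) : ZMod (2 ^ (k + 3))) =
      ((2 ^ (k + 3) : ℕ) : ZMod (2 ^ (k + 3))) * (c : ZMod (2 ^ (k + 3))) := by
    push_cast
    ring
  rw [h4, ZMod.natCast_self, zero_mul]

/-- a monomial in the characters -/
theorem mem_monomials (x : CC k) (hx : x ∈ Submonoid.closure (Set.range (chi (k := k)))) :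
    ∃ m : Fin k → ℕ, x = ∏ i, chi i ^ m i := by
  induction hx using Submonoid.closure_induction with
  | mem x hx =>
    obtain ⟨j, rfl⟩ := hx
    refine ⟨Pi.single j 1, ?_⟩
    rw [Finset.prod_eq_single j]
    · simp
    · intro i _ hij
      simp [hij]
    · simp
  | one => exact ⟨0, by simp⟩
  | mul x y _ _ hx hy =>
    obtain ⟨m, rfl⟩ := hx
    obtain ⟨m', rfl⟩ := hy
    refine ⟨m + m', ?_⟩
    rw [← Finset.prod_mul_distrib]
    apply Finset.prod_congr rfl
    intro i _
    exact (pow_add (chi i) (m i) (m' i)).symm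

section gen
variable (B : AddSubgroup (RR k)) (hB4 : ∀ x ∈ B, ∃ f, x = 4 • f) (hB8 : ∀ f : RR k, 8 • f ∈ B)
  (hBT : ∀ f : RR k, 8 • f = 0 → 4 • f ∈ B)
  (hBs : ∀ e, ∀ x ∈ B, ∃ y ∈ B, ∃ q, sig e x - x = 2 • y + 16 • q)
include hB4 hB8 hBT hBs

theorem step (a b : Fin 3) (i0 : Fin k) (P : AA k) (hP : shA (Pi.mulSingle i0 (-1)) P = P)
    (h : 4 • (Matrix.single a b ((1 + chiA i0) * P) : RR k) ∈ B) (n : ℕ) :
    4 • (Matrix.single a b (chiA i0 ^ n * P) : RR k) ∈ B := by
  obtain ⟨y, hy, q, hyq⟩ := hBs (Pi.mulSingle i0 (-1)) _ h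
  obtain ⟨y', rfl⟩ := hB4 y hy
  have h1 : sig (Pi.mulSingle i0 (-1)) (4 • (Matrix.single a b ((1 + chiA i0) * P) : RR k)) =
      4 • (Matrix.single a b ((1 - chiA i0) * P) : RR k) := by
    rw [map_nsmul]
    congr 1
    refine Matrix.ext fun i j => ?_
    rw [sig_apply, Matrix.single_apply, Matrix.single_apply]
    split_ifs with hij
    · rw [map_mul, map_add, map_one, hP, shA_chiA]
      simp [sub_eq_add_neg]
    · rw [map_zero]
  rw [h1] at hyq
  have hz : (Matrix.single a b ((1 - chiA i0) * P) : RR k) =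
      Matrix.single a b P - Matrix.single a b (chiA i0 * P) := by
    rw [sub_mul, one_mul, sub_eq_add_neg, Matrix.single_add, ← Matrix.single_neg, sub_eq_add_neg]
  have hw : (Matrix.single a b ((1 + chiA i0) * P) : RR k) =
      Matrix.single a b P + Matrix.single a b (chiA i0 * P) := by
    rw [← Matrix.single_add]; congr 1; ring
  set P1 : RR k := Matrix.single a b P with hP1
  set P2 : RR k := Matrix.single a b (chiA i0 * P) with hP2
  rw [hz, hw] at hyq
  rw [hw] at h
  have h8 : 8 • (P2 + y' + 2 • q) = 0 := by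
    have e1 : 8 • (P2 + y' + 2 • q) = (2 • (4 • y') + 16 • q) - (4 • (P1 - P2) - 4 • (P1 + P2)) := by
      noncomm_ring
    rw [e1, hyq, sub_self]
  have h4 := hBT _ h8
  have hP2B : 4 • P2 ∈ B := by
    have e2 : 4 • P2 = 4 • (P2 + y' + 2 • q) - 4 • y' - 8 • q := by noncomm_ring
    rw [e2]
    exact sub_mem (sub_mem h4 hy) (hB8 q)
  have hP1B : 4 • P1 ∈ B := by
    have e3 : 4 • P1 = 4 • (P1 + P2) - 4 • P2 := by noncomm_ring
    rw [e3]
    exact sub_mem h hP2B
  rcases Nat.even_or_odd n with ⟨m, hm⟩ | ⟨m, hm⟩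
  · have : chiA i0 ^ n = (1 : AA k) := by
      rw [hm, ← mul_two, mul_comm, pow_mul, pow_two, chiA_sq, one_pow]
    rw [this, one_mul]
    exact hP1B
  · have : chiA i0 ^ n = (chiA i0 : AA k) := by
      have e5 : chiA i0 ^ (2 * m + 1) = (chiA i0 * chiA i0) ^ m * chiA i0 := by
        ring
      rw [hm, e5, chiA_sq, one_pow, one_mul]
    rw [this]
    exact hP2B

theorem prods (a b : Fin 3) (m : ℕ) : ∀ c : Fin k → Option ℕ,
    (Finset.univ.filter (fun i => c i ≠ none)).card = m →
    4 • (Matrix.single a b (∏ i, fac (c i) i) : RR k) ∈ B := by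
  induction m with
  | zero =>
    intro c hc
    have h1 : ∀ i, c i = none := by
      intro i
      by_contra hcon
      rw [Finset.card_eq_zero] at hc
      have : i ∈ (Finset.univ.filter (fun i => c i ≠ none)) := by simp [hcon]
      rw [hc] at this
      simp at this
    simp only [h1]
    apply hBT
    rw [Matrix.smul_single, all_none_kill, Matrix.single_zero]
  | succ m ih =>
    intro c hc
    have hex : ∃ i0, c i0 ≠ none := by
      have : (Finset.univ.filter (fun i => c i ≠ none)).Nonempty := by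
        rw [← Finset.card_pos]; omega
      obtain ⟨i, hi⟩ := this
      exact ⟨i, (Finset.mem_filter.1 hi).2⟩
    obtain ⟨i0, hi0⟩ := hex
    obtain ⟨n, hn⟩ := Option.ne_none_iff_exists'.1 hi0
    have hsplit : ∀ d : Fin k → Option ℕ, ∏ i, (fac (d i) i : AA k) =
        fac (d i0) i0 * ∏ i ∈ Finset.univ.erase i0, fac (d i) i := by
      intro d
      exact (Finset.mul_prod_erase Finset.univ (fun i => (fac (d i) i : AA k)) (Finset.mem_univ i0)).symm
    have hup : ∏ i ∈ Finset.univ.erase i0, (fac (Function.update c i0 none i) i : AA k) =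
        ∏ i ∈ Finset.univ.erase i0, fac (c i) i := by
      apply Finset.prod_congr rfl
      intro i hi
      rw [Function.update_of_ne (Finset.ne_of_mem_erase hi)]
    have h1 := ih (Function.update c i0 none) (by
      have : (Finset.univ.filter (fun i => Function.update c i0 none i ≠ none)) =
          (Finset.univ.filter (fun i => c i ≠ none)).erase i0 := by
        ext i
        simp only [Finset.mem_filter, Finset.mem_univ, true_and, Finset.mem_erase]
        by_cases h : i = i0
        · subst h; simp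
        · simp [Function.update_of_ne h, h]
      rw [this, Finset.card_erase_of_mem (by simp [hi0]), hc]
      rfl)
    rw [hsplit, hup, Function.update_self] at h1
    rw [hsplit, hn]
    refine step B hB4 hB8 hBT hBs a b i0 _ ?_ h1 n
    rw [map_prod]
    apply Finset.prod_congr rfl
    intro i hi
    have hne := Finset.ne_of_mem_erase hi
    have h2 : shA (Pi.mulSingle i0 (-1)) (chiA i) = (chiA i : AA k) := by
      rw [shA_chiA, Pi.mulSingle_eq_of_ne hne]; simp
    cases c i with
    | none => simp only [fac]; rw [map_add, map_one, h2]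
    | some n => simp only [fac]; rw [map_pow, h2]

theorem all_mem (f : RR k) : 4 • f ∈ B := by
  have key : ∀ (a b : Fin 3) (p : AA k), 4 • (Matrix.single a b p : RR k) ∈ B := by
    intro a b p
    obtain ⟨x, hx⟩ := p
    have hx' : x ∈ AddSubgroup.closure (Submonoid.closure (Set.range (chi (k := k))) : Set (CC k)) :=
      Subring.mem_closure_iff.1 hx
    have gen : ∀ x ∈ AddSubgroup.closure (Submonoid.closure (Set.range (chi (k := k))) : Set (CC k)),
        ∀ hx : x ∈ AA k, 4 • (Matrix.single a b ⟨x, hx⟩ : RR k) ∈ B := by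
      intro x hx'
      have hsub : ∀ y ∈ AddSubgroup.closure (Submonoid.closure (Set.range (chi (k := k))) : Set (CC k)),
        y ∈ AA k := fun y hy => Subring.mem_closure_iff.2 hy
      induction hx' using AddSubgroup.closure_induction with
      | mem x hx =>
        intro hxA
        obtain ⟨m, hm⟩ := mem_monomials x hx
        have h1 : (⟨x, hxA⟩ : AA k) = ∏ i, fac (some (m i)) i := by
          apply Subtype.ext
          rw [SubmonoidClass.coe_finsetProd]
          exact hm
        rw [h1]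
        exact prods B hB4 hB8 hBT hBs a b _ (fun i => some (m i)) rfl
      | zero =>
        intro hxA
        have h1 : (⟨0, hxA⟩ : AA k) = 0 := rfl
        rw [h1, Matrix.single_zero, smul_zero]
        exact zero_mem _
      | add x y hx hy ihx ihy =>
        intro hxA
        have h1 : (⟨x + y, hxA⟩ : AA k) = ⟨x, hsub x hx⟩ + ⟨y, hsub y hy⟩ := rfl
        rw [h1, Matrix.single_add, smul_add]
        exact add_mem (ihx _) (ihy _)
      | neg x hx ihx =>
        intro hxA
        have h1 : (⟨-x, hxA⟩ : AA k) = -⟨x, hsub x hx⟩ := rfl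
        rw [h1, ← Matrix.single_neg, smul_neg]
        exact neg_mem (ihx _)
    exact gen x hx' hx
  rw [Matrix.matrix_eq_sum_single f, Finset.smul_sum]
  apply sum_mem
  intro i _
  rw [Finset.smul_sum]
  exact sum_mem (fun j _ => key i j _)

end gen

/-- the groups -/
abbrev GG (k : ℕ) : Type := NN (RR k) ⋊[phi k] EE k

theorem GG_dmax (H : Subgroup (GG k)) (hH : H ≠ ⊤) : Group.rank H < Group.rank (GG k) := by
  have hP : IsPGroup 2 (GG k) := isPGroup_G (RR_kill (k := k)) (phi k) EE_sq
  apply rank_lt_of_index_lt (hP.to_subgroup H)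
  exact dmax_index (RR_kill (k := k)) sig (phi k) phi_apply EE_sq sig_near
    (fun B h1 h2 h3 h4 => all_mem B h1 h2 h3 h4) H hH

theorem trv_mul (i j : Fin 3) (hij : i ≠ j) (c d : ℤ) :
    ((1 : RR k) + c • Matrix.single i j 1) * (1 + d • Matrix.single i j 1) =
      1 + (c + d) • Matrix.single i j 1 := by
  have h : (Matrix.single i j 1 : RR k) * Matrix.single i j 1 = 0 :=
    Matrix.single_mul_single_of_ne _ _ _ _ (Ne.symm hij) _
  rw [mul_add, add_mul, add_mul, one_mul, one_mul, mul_one, smul_mul_smul_comm, h, smul_zero, add_zero,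
    add_smul, add_assoc]

/-- transvections -/
def trv (i j : Fin 3) (hij : i ≠ j) (c : ℤ) : (RR k)ˣ where
  val := 1 + c • Matrix.single i j 1
  inv := 1 + (-c) • Matrix.single i j 1
  val_inv := by rw [trv_mul i j hij, add_neg_cancel, zero_smul, add_zero]
  inv_val := by rw [trv_mul i j hij, neg_add_cancel, zero_smul, add_zero]

theorem trv_mem (i j : Fin 3) (hij : i ≠ j) (c : ℤ) : trv (k := k) i j hij (4 * c) ∈ NN (RR k) := by
  refine ⟨c • Matrix.single i j 1, ?_⟩
  change (1 : RR k) + (4 * c) • Matrix.single i j 1 = 1 + (4 : ℕ) • (c • Matrix.single i j 1)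
  rw [mul_smul, ← natCast_zsmul (c • Matrix.single i j 1) 4]
  rfl

/-- transvections as elements of the congruence subgroup -/
def tr (i j : Fin 3) (hij : i ≠ j) (c : ℤ) : NN (RR k) := ⟨trv i j hij (4 * c), trv_mem i j hij c⟩

theorem tr_comm (i j l : Fin 3) (hij : i ≠ j) (hjl : j ≠ l) (hil : i ≠ l) (c d : ℤ) :
    ⁅(tr i j hij c : NN (RR k)), (tr j l hjl d : NN (RR k))⁆ = (tr i l hil (4 * (c * d)) : NN (RR k)) := by
  apply Subtype.ext
  apply Units.ext
  rw [commutatorElement_def]
  change ((1 : RR k) + (4 * c) • Matrix.single i j 1) * (1 + (4 * d) • Matrix.single j l 1) *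
    (1 + (-(4 * c)) • Matrix.single i j 1) * (1 + (-(4 * d)) • Matrix.single j l 1) =
    1 + (4 * (4 * (c * d))) • Matrix.single i l 1
  have h1 : (Matrix.single i j 1 : RR k) * Matrix.single i j 1 = 0 :=
    Matrix.single_mul_single_of_ne _ _ _ _ (Ne.symm hij) _
  have h2 : (Matrix.single j l 1 : RR k) * Matrix.single j l 1 = 0 :=
    Matrix.single_mul_single_of_ne _ _ _ _ (Ne.symm hjl) _
  have h3 : (Matrix.single j l 1 : RR k) * Matrix.single i j 1 = 0 :=
    Matrix.single_mul_single_of_ne _ _ _ _ (Ne.symm hil) _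
  have h4 : (Matrix.single i j 1 : RR k) * Matrix.single j l 1 = Matrix.single i l 1 := by
    rw [Matrix.single_mul_single_same, mul_one]
  have h5 : (Matrix.single i l 1 : RR k) * Matrix.single i j 1 = 0 :=
    Matrix.single_mul_single_of_ne _ _ _ _ (Ne.symm hil) _
  have h6 : (Matrix.single i l 1 : RR k) * Matrix.single j l 1 = 0 :=
    Matrix.single_mul_single_of_ne _ _ _ _ (Ne.symm hjl) _
  set X : RR k := Matrix.single i j 1
  set Y : RR k := Matrix.single j l 1
  set Z : RR k := Matrix.single i l 1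
  simp only [mul_add, add_mul, one_mul, mul_one, smul_mul_smul_comm, h1, h2, h3, h4, h5, h6, smul_zero,
    add_zero, neg_smul, mul_neg, neg_mul, smul_mul_assoc, mul_smul_comm, neg_neg, neg_zero]
  have e1 : (4 * (4 * (c * d))) • Z = (4 * d) • (4 * c) • Z := by
    rw [← mul_smul]; congr 1; ring
  rw [e1, smul_add]
  abel

/-- the transvections occurring in the derived series -/
theorem tr_mem_derived (s : ℕ) : ∀ (i j : Fin 3) (hij : i ≠ j),
    (inl (tr i j hij (4 ^ (2 ^ s - 1))) : GG k) ∈ derivedSeries (GG k) s := by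
  induction s with
  | zero => intro i j hij; exact Subgroup.mem_top _
  | succ s ih =>
    intro i j hij
    obtain ⟨l, hl1, hl2⟩ : ∃ l : Fin 3, i ≠ l ∧ l ≠ j := by
      revert i j; decide
    have h1 := Subgroup.commutator_mem_commutator (ih i l hl1) (ih l j hl2)
    rw [← map_commutatorElement, tr_comm i l j hl1 hl2 hij] at h1
    have h2 : (4 : ℤ) * (4 ^ (2 ^ s - 1) * 4 ^ (2 ^ s - 1)) = 4 ^ (2 ^ (s + 1) - 1) := by
      rw [← pow_add, ← pow_succ']
      congr 1
      have : 0 < 2 ^ s := by positivity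
      rw [pow_succ]
      omega
    rw [h2] at h1
    exact h1

theorem tr_ne_one (i j : Fin 3) (hij : i ≠ j) (s : ℕ) (hs : 2 ^ (s + 1) < k + 3) :
    (tr i j hij (4 ^ (2 ^ s - 1)) : NN (RR k)) ≠ 1 := by
  intro h
  have h1 := congrArg (fun u : NN (RR k) => (((u : (RR k)ˣ) : RR k) i j : CC k) 1) h
  change (((1 : RR k) + (4 * 4 ^ (2 ^ s - 1) : ℤ) • Matrix.single i j 1 : RR k) i j : CC k) 1 =
    (((1 : RR k) i j : AA k) : CC k) 1 at h1
  rw [Matrix.add_apply, Matrix.smul_apply, Matrix.single_apply_same, Matrix.one_apply_ne hij] at h1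
  have h2 : (((4 * 4 ^ (2 ^ s - 1) : ℤ)) : ZMod (2 ^ (k + 3))) = 0 := by
    have h3 : (((0 : AA k) + (4 * 4 ^ (2 ^ s - 1) : ℤ) • (1 : AA k) : AA k) : CC k) 1 =
      (((4 * 4 ^ (2 ^ s - 1) : ℤ)) : ZMod (2 ^ (k + 3))) := by
      rw [zero_add]
      change ((4 * 4 ^ (2 ^ s - 1) : ℤ) • (1 : CC k)) 1 = _
      rw [Pi.smul_apply, Pi.one_apply, zsmul_eq_mul, mul_one]
    rw [← h3, h1]
    rfl
  have h4 : (4 * 4 ^ (2 ^ s - 1) : ℤ) = ((2 ^ (2 ^ (s + 1)) : ℕ) : ℤ) := by
    push_cast
    rw [← pow_succ']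
    have h5 : (4 : ℤ) = 2 ^ 2 := by norm_num
    have h6 : 0 < 2 ^ s := by positivity
    rw [h5, ← pow_mul]
    congr 1
    rw [pow_succ]
    omega
  rw [h4, Int.cast_natCast, ZMod.natCast_eq_zero_iff, Nat.pow_dvd_pow_iff_le_right (by norm_num)] at h2
  omega

theorem derived_ne_bot (s : ℕ) (hs : 2 ^ (s + 1) < k + 3) : derivedSeries (GG k) s ≠ ⊥ := by
  intro h
  have h1 := tr_mem_derived (k := k) s 0 1 (by decide)
  rw [h, Subgroup.mem_bot] at h1
  apply tr_ne_one (k := k) 0 1 (by decide) s hs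
  exact inl_injective (by rw [h1, map_one])

theorem final (s : ℕ) : ∃ (G : Type) (_ : Group G) (_ : Finite G), IsPGroup 2 G ∧
    (∀ H : Subgroup G, H ≠ ⊤ → Group.rank H < Group.rank G) ∧ derivedSeries G s ≠ ⊥ :=
  ⟨GG (2 ^ (s + 1)), inferInstance, inferInstance,
    isPGroup_G (RR_kill (k := 2 ^ (s + 1))) (phi (2 ^ (s + 1))) EE_sq,
    fun H hH => GG_dmax H hH, derived_ne_bot s (by omega)⟩

end Pool.Agent.W370
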