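import Pool.Agent.H746R3.Burn

set_option autoImplicit false

/-!
Abstract criterion: the congruence subgroup of level 4 of a finite ring, extended by an elementary
abelian 2-group of ring automorphisms, is d-maximal under two conditions.
-/

namespace Pool.Agent.W370

open SemidirectProduct
open Pool.Agent.H746R3 (Sq sq_mem comm_mem burnside burnside_lower eq_top_of_sup_Sq)

section Ring
variable {R : Type} [Ring R]

/-- the congruence subgroup of level 4 -/
def NN (R : Type) [Ring R] : Subgroup Rˣ where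
  carrier := {u | ∃ f : R, (u : R) = 1 + 4 • f}
  one_mem' := ⟨0, by simp⟩
  mul_mem' := by
    rintro u v ⟨f, hf⟩ ⟨g, hg⟩
    refine ⟨f + g + 4 • (f * g), ?_⟩
    rw [Units.val_mul, hf, hg]
    noncomm_ring
  inv_mem' := by
    rintro u ⟨f, hf⟩
    refine ⟨-(f * (↑u⁻¹ : R)), ?_⟩
    have h : (u : R) * (↑u⁻¹ : R) = 1 := u.mul_inv
    rw [hf, add_mul, one_mul, smul_mul_assoc] at h
    rw [smul_neg, ← sub_eq_add_neg, eq_sub_iff_add_eq]
    exact h

theorem mem_NN {u : Rˣ} : u ∈ NN R ↔ ∃ f : R, (u : R) = 1 + 4 • f := Iff.rfl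

theorem NN_spec (u : NN R) : ∃ f : R, ((u : Rˣ) : R) = 1 + 4 • f := u.2

/-- the elements differing from 1 by something killed by 2 -/
def LL (R : Type) [Ring R] : Subgroup (NN R) where
  carrier := {u | 2 • (((u : Rˣ) : R) - 1) = 0}
  one_mem' := by simp
  mul_mem' := by
    intro u v hu hv
    change 2 • (((u : Rˣ) : R) - 1) = 0 at hu
    change 2 • (((v : Rˣ) : R) - 1) = 0 at hv
    change 2 • ((((u * v : NN R) : Rˣ) : R) - 1) = 0
    have h : (((u * v : NN R) : Rˣ) : R) - 1 =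
        (((u : Rˣ) : R) - 1) + (((v : Rˣ) : R) - 1) + (((u : Rˣ) : R) - 1) * (((v : Rˣ) : R) - 1) := by
      rw [Subgroup.coe_mul, Units.val_mul]; noncomm_ring
    rw [h, smul_add, smul_add, hu, hv, ← smul_mul_assoc, hu]
    simp
  inv_mem' := by
    intro u hu
    change 2 • (((u : Rˣ) : R) - 1) = 0 at hu
    change 2 • ((((u⁻¹ : NN R) : Rˣ) : R) - 1) = 0
    have h : (((u⁻¹ : NN R) : Rˣ) : R) - 1 = -((((u : Rˣ) : R) - 1) * (↑(u : Rˣ)⁻¹ : R)) := by
      rw [sub_mul, Units.mul_inv, Subgroup.coe_inv]; noncomm_ring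
    rw [h, smul_neg, ← smul_mul_assoc, hu]
    simp

theorem mem_LL {u : NN R} : u ∈ LL R ↔ 2 • (((u : Rˣ) : R) - 1) = 0 := Iff.rfl

/-- the congruence subgroup of level 8 -/
def N1 (R : Type) [Ring R] : Subgroup (NN R) where
  carrier := {u | ∃ f : R, ((u : Rˣ) : R) = 1 + 8 • f}
  one_mem' := ⟨0, by simp⟩
  mul_mem' := by
    rintro u v ⟨f, hf⟩ ⟨g, hg⟩
    refine ⟨f + g + 8 • (f * g), ?_⟩
    rw [Subgroup.coe_mul, Units.val_mul, hf, hg]
    noncomm_ring
  inv_mem' := by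
    rintro u ⟨f, hf⟩
    refine ⟨-(f * (↑(u : Rˣ)⁻¹ : R)), ?_⟩
    have h : ((u : Rˣ) : R) * (↑(u : Rˣ)⁻¹ : R) = 1 := (u : Rˣ).mul_inv
    rw [hf, add_mul, one_mul, smul_mul_assoc] at h
    rw [smul_neg, ← sub_eq_add_neg, eq_sub_iff_add_eq, Subgroup.coe_inv]
    exact h

theorem mem_N1 {u : NN R} : u ∈ N1 R ↔ ∃ f : R, ((u : Rˣ) : R) = 1 + 8 • f := Iff.rfl

variable {n : ℕ} (hn : ∀ x : R, (2 ^ n : ℕ) • x = 0)
include hn

theorem isUnit_aux (f : R) : IsUnit (1 + 4 • f) := by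
  apply IsNilpotent.isUnit_one_add
  refine ⟨n, ?_⟩
  rw [smul_pow]
  have : (4 : ℕ) ^ n = 2 ^ n * 2 ^ n := by rw [← mul_pow]; norm_num
  rw [this, mul_smul, hn]

theorem sq_eq_aux {u v f g : R} (hu : u = 1 + 4 • f) (hv : v = 1 + 4 • g) (h : u * u = v * v) :
    2 • (u - v) = 0 := by
  set z := 2 • (u - v) with hz
  have h1 : z = -(2 • (f * z + z * g)) := by
    have h2 : z + 2 • (f * z + z * g) = u * u - v * v := by
      have h3 : u * u - v * v = u * (u - v) + (u - v) * v := by noncomm_ring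
      rw [h3]
      have h4 : (u - v) * v = (u - v) + 4 • ((u - v) * g) := by
        nth_rewrite 2 [hv]
        noncomm_ring
      have h4' : u * (u - v) = (u - v) + 4 • (f * (u - v)) := by
        nth_rewrite 1 [hu]
        noncomm_ring
      rw [h4, h4', hz]
      generalize u - v = d
      noncomm_ring
    rw [h, sub_self] at h2
    exact eq_neg_of_add_eq_zero_left h2
  have h5 : ∀ m : ℕ, ∃ w : R, z = (2 ^ m : ℕ) • w := by
    intro m
    induction m with
    | zero => exact ⟨z, by simp⟩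
    | succ m ih =>
      obtain ⟨w, hw⟩ := ih
      refine ⟨-(f * w + w * g), ?_⟩
      rw [h1]
      nth_rewrite 1 [hw]
      nth_rewrite 1 [hw]
      rw [mul_smul_comm, smul_mul_assoc, ← smul_add, ← mul_smul, smul_neg, pow_succ, mul_comm 2]
  obtain ⟨w, hw⟩ := h5 n
  rw [hw, hn]

theorem sq_eq_imp {u v : NN R} (h : u ^ 2 = v ^ 2) : u⁻¹ * v ∈ LL R := by
  obtain ⟨f, hf⟩ := NN_spec u
  obtain ⟨g, hg⟩ := NN_spec v
  have h1 : ((u : Rˣ) : R) * ((u : Rˣ) : R) = ((v : Rˣ) : R) * ((v : Rˣ) : R) := by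
    have := congrArg (fun x : NN R => ((x : Rˣ) : R)) h
    simpa [pow_two] using this
  have h2 := sq_eq_aux hn hf hg h1
  rw [mem_LL]
  have h3 : (((u⁻¹ * v : NN R) : Rˣ) : R) - 1 =
      -((↑(u : Rˣ)⁻¹ : R) * (((u : Rˣ) : R) - ((v : Rˣ) : R))) := by
    rw [mul_sub, Units.inv_mul, Subgroup.coe_mul, Units.val_mul, Subgroup.coe_inv]
    noncomm_ring
  rw [h3, smul_neg, ← mul_smul_comm, h2]
  simp

/-- The squares of a subgroup of `NN`. -/
theorem card_le_sq [Finite R] (K : Subgroup (NN R)) :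
    Nat.card K ≤ Nat.card (K ⊓ LL R : Subgroup (NN R)) * ((fun x : NN R => x ^ 2) '' K).ncard := by
  classical
  set S := (fun x : NN R => x ^ 2) '' (K : Set (NN R)) with hS
  have hrep : ∀ y : S, ∃ x : NN R, x ∈ K ∧ x ^ 2 = y := by
    rintro ⟨y, x, hx, rfl⟩
    exact ⟨x, hx, rfl⟩
  choose rep hrep1 hrep2 using hrep
  let F : K → (K ⊓ LL R : Subgroup (NN R)) × S := fun x =>
    (⟨(rep ⟨(x : NN R) ^ 2, x, x.2, rfl⟩)⁻¹ * x, Subgroup.mem_inf.2 ⟨K.mul_mem (K.inv_mem (hrep1 _)) x.2,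
      sq_eq_imp hn (hrep2 _)⟩⟩, ⟨(x : NN R) ^ 2, x, x.2, rfl⟩)
  have hF : Function.Injective F := by
    intro x y hxy
    have h1 : (⟨(x : NN R) ^ 2, x, x.2, rfl⟩ : S) = ⟨(y : NN R) ^ 2, y, y.2, rfl⟩ := congrArg Prod.snd hxy
    have h2 := congrArg (fun z => ((Prod.fst z : (K ⊓ LL R : Subgroup (NN R))) : NN R)) hxy
    change (rep ⟨(x : NN R) ^ 2, x, x.2, rfl⟩)⁻¹ * (x : NN R) =
      (rep ⟨(y : NN R) ^ 2, y, y.2, rfl⟩)⁻¹ * (y : NN R) at h2
    rw [h1] at h2
    exact Subtype.ext (mul_left_cancel h2)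
  have h := Nat.card_le_card_of_injective F hF
  rw [Nat.card_prod] at h
  exact h

theorem card_units (A : AddSubgroup R) (hA : ∀ x ∈ A, ∃ f, x = 4 • f) (K : Subgroup (NN R))
    (hK : ∀ u : NN R, u ∈ K ↔ ((u : Rˣ) : R) - 1 ∈ A) : Nat.card K = Nat.card A := by
  let F : K → A := fun u => ⟨((((u : NN R) : Rˣ)) : R) - 1, (hK _).1 u.2⟩
  apply Nat.card_congr (Equiv.ofBijective F ⟨?_, ?_⟩)
  · intro u v h
    have h1 := congrArg (fun z : A => (z : R)) h
    change ((((u : NN R) : Rˣ)) : R) - 1 = ((((v : NN R) : Rˣ)) : R) - 1 at h1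
    exact Subtype.ext (Subtype.ext (Units.ext (sub_left_injective h1)))
  · rintro ⟨x, hx⟩
    obtain ⟨f, hf⟩ := hA x hx
    obtain ⟨u, hu⟩ := isUnit_aux hn f
    have huN : u ∈ NN R := ⟨f, hu⟩
    refine ⟨⟨⟨u, huN⟩, ?_⟩, ?_⟩
    · rw [hK]
      change (u : R) - 1 ∈ A
      rw [hu, add_sub_cancel_left, ← hf]
      exact hx
    · apply Subtype.ext
      change (u : R) - 1 = x
      rw [hu, add_sub_cancel_left, ← hf]

theorem card_NN [Finite R] : Nat.card (NN R) = Nat.card (N1 R) * Nat.card (LL R) := by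
  let R4 : AddSubgroup R := (nsmulAddMonoidHom (α := R) 4).range
  let m2 : R4 →+ R := (nsmulAddMonoidHom (α := R) 2).comp R4.subtype
  have h4 : Nat.card (⊤ : Subgroup (NN R)) = Nat.card R4 := by
    apply card_units hn R4
    · rintro x ⟨f, rfl⟩
      exact ⟨f, rfl⟩
    · intro u
      obtain ⟨f, hf⟩ := NN_spec u
      simp only [Subgroup.mem_top, true_iff]
      exact ⟨f, by rw [hf, add_sub_cancel_left]; rfl⟩
  have h8 : Nat.card (N1 R) = Nat.card m2.range := by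
    apply card_units hn m2.range
    · rintro _ ⟨⟨_, ⟨f, rfl⟩⟩, rfl⟩
      refine ⟨2 • f, ?_⟩
      change 2 • (4 • f) = 4 • (2 • f)
      rw [← mul_smul, ← mul_smul]
      norm_num
    · intro u
      rw [mem_N1]
      constructor
      · rintro ⟨f, hf⟩
        refine ⟨⟨4 • f, ⟨f, rfl⟩⟩, ?_⟩
        change 2 • (4 • f) = _
        rw [hf, add_sub_cancel_left, ← mul_smul]
        norm_num
      · rintro ⟨⟨_, ⟨f, rfl⟩⟩, hf⟩
        refine ⟨f, ?_⟩
        change 2 • (4 • f) = _ at hf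
        rw [← mul_smul] at hf
        have h9 : (2 * 4 : ℕ) • f = 8 • f := by norm_num
        rw [← h9, hf, add_sub_cancel]
  have h2 : Nat.card (LL R) = Nat.card (m2.ker.map R4.subtype) := by
    apply card_units hn (m2.ker.map R4.subtype)
    · rintro _ ⟨⟨_, ⟨f, rfl⟩⟩, _, rfl⟩
      exact ⟨f, rfl⟩
    · intro u
      rw [mem_LL]
      constructor
      · intro h
        obtain ⟨f, hf⟩ := NN_spec u
        rw [hf, add_sub_cancel_left] at h
        refine ⟨⟨4 • f, ⟨f, rfl⟩⟩, ?_, ?_⟩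
        · exact h
        · change 4 • f = _
          rw [hf, add_sub_cancel_left]
      · rintro ⟨x, hx, hx2⟩
        rw [← hx2]
        exact hx
  have h2' : Nat.card (m2.ker.map R4.subtype) = Nat.card m2.ker :=
    Nat.card_congr (m2.ker.equivMapOfInjective _ R4.subtype_injective).symm.toEquiv
  have hfin : Finite R4 := inferInstance
  have h3 : Nat.card m2.ker * Nat.card m2.range = Nat.card R4 := by
    rw [← AddSubgroup.index_ker, AddSubgroup.card_mul_index]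
  rw [← Subgroup.card_top, h4, h8, h2, h2', ← h3, mul_comm]

theorem N1_le [Finite R] : N1 R ≤ Sq (NN R) := by
  -- downward induction on the level
  have key : ∀ j m : ℕ, m + j = n + 3 → 3 ≤ m → ∀ u : NN R,
      (∃ f : R, ((u : Rˣ) : R) = 1 + (2 ^ m : ℕ) • f) → u ∈ Sq (NN R) := by
    intro j
    induction j with
    | zero =>
      intro m hm _ u hu
      obtain ⟨f, hf⟩ := hu
      have : m = n + 3 := hm
      rw [this, pow_add, mul_comm, mul_smul, hn, smul_zero, add_zero] at hf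
      have h1 : u = 1 := Subtype.ext (Units.ext hf)
      rw [h1]
      exact one_mem _
    | succ j ih =>
      intro m hm h3 u hu
      obtain ⟨f, hf⟩ := hu
      obtain ⟨c, rfl⟩ : ∃ c, m = c + 3 := ⟨m - 3, by omega⟩
      obtain ⟨v, hv⟩ := isUnit_aux hn ((2 ^ c : ℕ) • f)
      have hvN : v ∈ NN R := ⟨_, hv⟩
      let w : NN R := ⟨v, hvN⟩
      have h4 : u * (w ^ 2)⁻¹ ∈ Sq (NN R) := by
        apply ih (c + 4) (by omega) (by omega)
        refine ⟨-((2 ^ c : ℕ) • (f * f * (↑((v ^ 2)⁻¹) : R))), ?_⟩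
        have h5 : (((u * (w ^ 2)⁻¹ : NN R) : Rˣ) : R) = ((u : Rˣ) : R) * (↑((v ^ 2)⁻¹) : R) := rfl
        have h6 : ((u : Rˣ) : R) = ((v ^ 2 : Rˣ) : R) - (2 ^ (c + 4) * 2 ^ c : ℕ) • (f * f) := by
          rw [hf, Units.val_pow_eq_pow_val, hv]
          have e1 : (4 : ℕ) • ((2 ^ c : ℕ) • f) = (2 ^ (c + 2) : ℕ) • f := by
            rw [← mul_smul, pow_add]; congr 1; ring
          rw [e1, pow_two, mul_add, add_mul, add_mul, one_mul, one_mul, mul_one, smul_mul_assoc,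
            mul_smul_comm, ← mul_smul]
          have e2 : (2 ^ (c + 3) : ℕ) • f = (2 ^ (c + 2) : ℕ) • f + (2 ^ (c + 2) : ℕ) • f := by
            rw [← add_smul]; congr 1; ring
          have e3 : (2 ^ (c + 4) * 2 ^ c : ℕ) = 2 ^ (c + 2) * 2 ^ (c + 2) := by ring
          rw [e2, e3]
          abel
        rw [h5, h6, sub_mul, Units.mul_inv, smul_mul_assoc, mul_smul, smul_neg, ← sub_eq_add_neg]
      have h7 : u = (u * (w ^ 2)⁻¹) * w ^ 2 := by group
      rw [h7]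
      exact mul_mem h4 (sq_mem _)
  intro u hu
  obtain ⟨f, hf⟩ := hu
  exact key n 3 (by omega) le_rfl u ⟨f, by rw [hf]; norm_num⟩

end Ring

end Pool.Agent.W370
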