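import Pool.Agent.W370.DMaxAbs

set_option autoImplicit false

namespace Pool.Agent.W370

open SemidirectProduct
open Pool.Agent.H746R3 (Sq sq_mem comm_mem burnside burnside_lower eq_top_of_sup_Sq)

section part
variable {N A : Type} [Group N] [Group A] (φ : A →* MulAut N)

instance finite_semi [Finite N] [Finite A] : Finite (N ⋊[φ] A) :=
  Finite.of_equiv (N × A) SemidirectProduct.equivProd.symm

/-- the part of `H` inside `N` -/
def part (H : Subgroup (N ⋊[φ] A)) : Subgroup N := H.comap inl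

theorem card_part [Finite N] [Finite A] (H : Subgroup (N ⋊[φ] A)) :
    Nat.card H = Nat.card (part φ H) * Nat.card (H.map (rightHom : N ⋊[φ] A →* A)) := by
  let f : H →* A := (rightHom : N ⋊[φ] A →* A).comp H.subtype
  have h1 : Nat.card f.ker * Nat.card f.range = Nat.card H := by
    rw [← Subgroup.index_ker, Subgroup.card_mul_index]
  have h2 : f.range = H.map (rightHom : N ⋊[φ] A →* A) := by
    simp [f, MonoidHom.range_comp]
  have h3 : Nat.card f.ker = Nat.card (part φ H) := by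
    refine Nat.card_congr ⟨fun x => ⟨((x : H) : N ⋊[φ] A).left, ?_⟩,
      fun n => ⟨⟨inl (n : N), n.2⟩, ?_⟩, ?_, ?_⟩
    · have hx := x.2
      rw [MonoidHom.mem_ker] at hx
      have hx' : ((x : H) : N ⋊[φ] A).right = 1 := hx
      change inl _ ∈ H
      have : (inl (((x : H) : N ⋊[φ] A).left) : N ⋊[φ] A) = (x : H) := by
        ext
        · rfl
        · exact hx'.symm
      rw [this]
      exact (x : H).2
    · rw [MonoidHom.mem_ker]
      change rightHom (inl (n : N) : N ⋊[φ] A) = 1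
      simp
    · intro x
      have hx := x.2
      rw [MonoidHom.mem_ker] at hx
      have hx' : ((x : H) : N ⋊[φ] A).right = 1 := hx
      apply Subtype.ext
      apply Subtype.ext
      ext
      · rfl
      · exact hx'.symm
    · intro n
      rfl
  rw [← h1, h2, h3]

end part

section Main
variable {R E : Type} [Ring R] [Finite R] [Group E] [Finite E]
  {n : ℕ} (hn : ∀ x : R, (2 ^ n : ℕ) • x = 0)
  (σ : E → R ≃+* R) (φ : E →* MulAut (NN R))
  (hφ : ∀ e u, ((φ e u : Rˣ) : R) = σ e ((u : Rˣ) : R))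
  (hE : ∀ e : E, e ^ 2 = 1)
  (H1 : ∀ e f, ∃ g, σ e f = f + 2 • g)
include hn hφ hE H1

omit [Finite R] [Finite E] hn in
theorem Sq_le : Sq (NN R ⋊[φ] E) ≤ (N1 R).map (inl : NN R →* NN R ⋊[φ] E) := by
  unfold Sq
  rw [Subgroup.closure_le]
  rintro _ ⟨g, rfl⟩
  refine ⟨g.left * φ g.right g.left, ?_, ?_⟩
  · obtain ⟨f, hf⟩ := NN_spec g.left
    obtain ⟨q, hq⟩ := H1 g.right f
    change ∃ f : R, (((g.left * φ g.right g.left : NN R) : Rˣ) : R) = 1 + 8 • f
    refine ⟨f + q + 2 • (f * (f + 2 • q)), ?_⟩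
    rw [Subgroup.coe_mul, Units.val_mul, hφ, hf, map_add, map_one, map_nsmul, hq]
    noncomm_ring
  · ext
    · simp [pow_two]
    · have := hE g.right
      simpa [pow_two] using this.symm

theorem index_ge : Nat.card (LL R) * Nat.card E ≤ (Sq (NN R ⋊[φ] E)).index := by
  have hle := Sq_le σ φ hφ hE H1
  have hcard : Nat.card (Sq (NN R ⋊[φ] E)) ≤ Nat.card (N1 R) := by
    refine (Nat.card_le_card_of_injective (Subgroup.inclusion hle) (Subgroup.inclusion_injective hle)).trans ?_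
    exact (Subgroup.card_map_of_injective inl_injective).le
  have h1 : Nat.card (Sq (NN R ⋊[φ] E)) * (Sq (NN R ⋊[φ] E)).index = Nat.card (NN R) * Nat.card E := by
    rw [Subgroup.card_mul_index, SemidirectProduct.card]
  have h2 := card_NN hn
  have hpos : 0 < Nat.card (N1 R) := Nat.card_pos
  have h3 : Nat.card (N1 R) * (Nat.card (LL R) * Nat.card E) ≤
      Nat.card (N1 R) * (Sq (NN R ⋊[φ] E)).index := by
    calc _ = Nat.card (NN R) * Nat.card E := by rw [h2]; ring
      _ = Nat.card (Sq (NN R ⋊[φ] E)) * (Sq (NN R ⋊[φ] E)).index := h1.symm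
      _ ≤ _ := Nat.mul_le_mul_right _ hcard
  exact Nat.le_of_mul_le_mul_left h3 hpos

omit hφ hE H1 [Finite E] [Finite R] in
theorem two_pow_nn (m : ℕ) : ∀ u : NN R, ∃ f : R, (((u ^ (2 ^ m) : NN R) : Rˣ) : R) = 1 + (2 ^ m : ℕ) • (4 • f) := by
  induction m with
  | zero =>
    intro u
    obtain ⟨f, hf⟩ := NN_spec u
    exact ⟨f, by simpa using hf⟩
  | succ m ih =>
    intro u
    obtain ⟨f, hf⟩ := ih u
    refine ⟨f + (2 ^ m : ℕ) • (2 • (f * f)), ?_⟩
    have e0 : (2 ^ (m + 1) : ℕ) = 2 * 2 ^ m := by ring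
    have e00 : u ^ (2 ^ (m + 1)) = u ^ (2 ^ m) * u ^ (2 ^ m) := by
      rw [← pow_add]; congr 1; ring
    rw [e00, Subgroup.coe_mul, Units.val_mul, hf]
    rw [e0, smul_add, smul_add, mul_add, add_mul, add_mul, one_mul, one_mul, mul_one,
      smul_mul_assoc, smul_mul_assoc, mul_smul_comm, mul_smul_comm]
    simp only [← mul_smul]
    have e1 : (2 ^ m * (4 * (2 ^ m * 4)) : ℕ) = 2 * 2 ^ m * (4 * (2 ^ m * 2)) := by ring
    rw [e1]
    have e2 : (2 * 2 ^ m * 4 : ℕ) • f = (2 ^ m * 4 : ℕ) • f + (2 ^ m * 4 : ℕ) • f := by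
      rw [← add_smul]; congr 1; ring
    rw [e2]
    abel

omit [Finite R] [Finite E] H1 hφ in
theorem isPGroup_G : IsPGroup 2 (NN R ⋊[φ] E) := by
  intro g
  refine ⟨n + 1, ?_⟩
  have h1 : g ^ 2 = inl (g ^ 2).left := by
    ext
    · rfl
    · rw [right_inl, pow_two, mul_right, ← pow_two, hE]
  have h2 : 2 ^ (n + 1) = 2 * 2 ^ n := by ring
  rw [h2, pow_mul, h1, ← map_pow]
  have h3 : ((g ^ 2).left) ^ (2 ^ n) = 1 := by
    obtain ⟨f, hf⟩ := two_pow_nn hn n (g ^ 2).left
    rw [hn, add_zero] at hf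
    exact Subtype.ext (Units.ext hf)
  rw [h3, map_one]

omit [Finite R] [Finite E] H1 hφ hE in
theorem isPGroup_NN : IsPGroup 2 (NN R) := by
  intro g
  refine ⟨n, ?_⟩
  obtain ⟨f, hf⟩ := two_pow_nn hn n g
  rw [hn, add_zero] at hf
  exact Subtype.ext (Units.ext hf)

/-- The criterion. -/
theorem dmax_index
    (H2 : ∀ B : AddSubgroup R, (∀ x ∈ B, ∃ f, x = 4 • f) → (∀ f : R, 8 • f ∈ B) →
      (∀ f : R, 8 • f = 0 → 4 • f ∈ B) →
      (∀ e, ∀ x ∈ B, ∃ y ∈ B, ∃ q, σ e x - x = 2 • y + 16 • q) → ∀ f : R, 4 • f ∈ B)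
    (H : Subgroup (NN R ⋊[φ] E)) (hH : H ≠ ⊤) :
    (Sq H).index < (Sq (NN R ⋊[φ] E)).index := by
  by_contra hcon
  push Not at hcon
  set K := part φ H with hKdef
  set A0 := H.map (rightHom : NN R ⋊[φ] E →* E) with hA0
  have hcardH : Nat.card H = Nat.card K * Nat.card A0 := card_part φ H
  have hcardK := card_le_sq hn K
  set S := (fun x : NN R => x ^ 2) '' (K : Set (NN R)) with hS
  have hmemS : ∀ y : S, ∃ x : NN R, x ∈ K ∧ x ^ 2 = y := by
    rintro ⟨y, x, hx, rfl⟩
    exact ⟨x, hx, rfl⟩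
  have hSH : ∀ y : S, ∃ hy : (inl (y : NN R) : NN R ⋊[φ] E) ∈ H, (⟨inl (y : NN R), hy⟩ : H) ∈ Sq H := by
    intro y
    obtain ⟨x, hx, hxy⟩ := hmemS y
    have hx' : (inl x : NN R ⋊[φ] E) ∈ H := hx
    have h1 : (inl (y : NN R) : NN R ⋊[φ] E) = (inl x) ^ 2 := by rw [← hxy, map_pow]
    have h2 : (inl (y : NN R) : NN R ⋊[φ] E) ∈ H := by rw [h1]; exact pow_mem hx' 2
    refine ⟨h2, ?_⟩
    have h3 : (⟨inl (y : NN R), h2⟩ : H) = (⟨inl x, hx'⟩ : H) ^ 2 := Subtype.ext h1
    rw [h3]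
    exact sq_mem _
  let F : S → Sq H := fun y => ⟨⟨inl (y : NN R), (hSH y).1⟩, (hSH y).2⟩
  have hFinj : Function.Injective F := by
    intro y z h
    have h1 := congrArg (fun w : Sq H => ((w : H) : NN R ⋊[φ] E)) h
    exact Subtype.ext (inl_injective h1)
  have hScard : S.ncard = Nat.card S := rfl
  have hle2 : Nat.card S ≤ Nat.card (Sq H) := Nat.card_le_card_of_injective F hFinj
  have hidx : Nat.card (Sq H) * (Sq H).index = Nat.card H := Subgroup.card_mul_index _
  have hker : Nat.card (K ⊓ LL R : Subgroup (NN R)) ≤ Nat.card (LL R) :=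
    Nat.card_le_card_of_injective (Subgroup.inclusion inf_le_right) (Subgroup.inclusion_injective _)
  have hA0le : Nat.card A0 ≤ Nat.card E := Subgroup.card_le_card_group _
  have htop := (index_ge hn σ φ hφ hE H1).trans hcon
  rw [hScard] at hcardK
  set k := Nat.card (K ⊓ LL R : Subgroup (NN R)) with hk
  set r := Nat.card S with hr
  set l := Nat.card (LL R) with hl
  set c := Nat.card (Sq H) with hc
  have hcpos : 0 < c := Nat.card_pos
  have hkpos : 0 < k := Nat.card_pos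
  have hApos : 0 < Nat.card E := Nat.card_pos
  have hlpos : 0 < l := Nat.card_pos
  have hA0pos : 0 < Nat.card A0 := Nat.card_pos
  have h3 : c * (Sq H).index ≤ c * (k * Nat.card A0) := by
    calc c * (Sq H).index = Nat.card K * Nat.card A0 := by rw [hidx, hcardH]
      _ ≤ (k * r) * Nat.card A0 := Nat.mul_le_mul_right _ hcardK
      _ ≤ (k * c) * Nat.card A0 := Nat.mul_le_mul_right _ (Nat.mul_le_mul_left _ hle2)
      _ = c * (k * Nat.card A0) := by ring
  have h4 : (Sq H).index ≤ k * Nat.card A0 := Nat.le_of_mul_le_mul_left h3 hcpos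
  have h5 : l * Nat.card E ≤ k * Nat.card A0 := htop.trans h4
  have hkk : k = l := by
    by_contra hne
    have hlt : k < l := lt_of_le_of_ne hker hne
    have : k * Nat.card A0 < l * Nat.card E :=
      lt_of_le_of_lt (Nat.mul_le_mul_left _ hA0le) (Nat.mul_lt_mul_of_pos_right hlt hApos)
    omega
  have hAA : Nat.card A0 = Nat.card E := by
    rw [hkk] at h5
    exact le_antisymm hA0le (Nat.le_of_mul_le_mul_left h5 hlpos)
  have h6 : (Sq H).index = k * Nat.card A0 := by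
    apply le_antisymm h4
    rw [hkk, hAA]; exact htop
  have h7 : c = r := by
    apply le_antisymm _ hle2
    have h8 : c * (k * Nat.card A0) ≤ r * (k * Nat.card A0) := by
      calc c * (k * Nat.card A0) = Nat.card K * Nat.card A0 := by rw [← h6, hidx, hcardH]
        _ ≤ (k * r) * Nat.card A0 := Nat.mul_le_mul_right _ hcardK
        _ = r * (k * Nat.card A0) := by ring
    exact Nat.le_of_mul_le_mul_right h8 (Nat.mul_pos hkpos hA0pos)
  have hFsurj : Function.Surjective F :=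
    ((Nat.bijective_iff_injective_and_card F).2 ⟨hFinj, h7.symm⟩).2
  have hLK : LL R ≤ K := by
    have h9 : (K ⊓ LL R : Subgroup (NN R)) = LL R :=
      Subgroup.eq_of_le_of_card_ge inf_le_right (by rw [← hk, ← hl, hkk])
    rw [← h9]
    exact inf_le_left
  have hA0top : A0 = ⊤ := Subgroup.eq_top_of_card_eq _ hAA
  have hlift : ∀ a : E, ∃ h ∈ H, h.right = a := by
    intro a
    have : a ∈ A0 := by rw [hA0top]; trivial
    obtain ⟨h, hh, rfl⟩ := this
    exact ⟨h, hh, rfl⟩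
  have hsq : ∀ (u : NN R) (hu : (inl u : NN R ⋊[φ] E) ∈ H), (⟨inl u, hu⟩ : H) ∈ Sq H →
      ∃ t ∈ K, u = t ^ 2 := by
    intro u hu hu2
    obtain ⟨y, hy⟩ := hFsurj ⟨⟨inl u, hu⟩, hu2⟩
    obtain ⟨x, hx, hxy⟩ := hmemS y
    refine ⟨x, hx, ?_⟩
    have h1 := congrArg (fun w : Sq H => ((w : H) : NN R ⋊[φ] E)) hy
    have h2 : (y : NN R) = u := inl_injective h1
    rw [← h2, hxy]
  -- the additive subgroup
  let B : AddSubgroup R :=
    { carrier := {x | ∃ s ∈ K, ∃ q : R, x = ((s : Rˣ) : R) - 1 + 8 • q}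
      zero_mem' := ⟨1, one_mem _, 0, by simp⟩
      add_mem' := by
        rintro x y ⟨s, hs, q, rfl⟩ ⟨t, ht, p, rfl⟩
        obtain ⟨f, hf⟩ := NN_spec s
        obtain ⟨g, hg⟩ := NN_spec t
        refine ⟨s * t, mul_mem hs ht, q + p - 2 • (f * g), ?_⟩
        rw [Subgroup.coe_mul, Units.val_mul, hf, hg]
        noncomm_ring
      neg_mem' := by
        rintro x ⟨s, hs, q, rfl⟩
        obtain ⟨f, hf⟩ := NN_spec s
        obtain ⟨g, hg⟩ := NN_spec s⁻¹
        refine ⟨s⁻¹, inv_mem hs, -q + 2 • (f * g), ?_⟩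
        have h1 : ((s : Rˣ) : R) * (((s⁻¹ : NN R) : Rˣ) : R) = 1 := by
          rw [Subgroup.coe_inv]; exact (s : Rˣ).mul_inv
        rw [hf, hg] at h1
        have h2 : 4 • f + 4 • g + 16 • (f * g) = 0 := by
          have : (1 + 4 • f) * (1 + 4 • g) = 1 + (4 • f + 4 • g + 16 • (f * g)) := by noncomm_ring
          rw [this] at h1
          exact add_eq_left.1 h1
        rw [hf, hg]
        have h3 : -(1 + 4 • f - 1 + 8 • q) = (1 + 4 • g - 1 + 8 • (-q + 2 • (f * g))) -
            (4 • f + 4 • g + 16 • (f * g)) := by noncomm_ring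
        rw [h3, h2, sub_zero] }
  have hB : ∀ f, 4 • f ∈ B := by
    apply H2 B
    · rintro x ⟨s, hs, q, rfl⟩
      obtain ⟨f, hf⟩ := NN_spec s
      refine ⟨f + 2 • q, ?_⟩
      rw [hf]
      noncomm_ring
    · intro f
      exact ⟨1, one_mem _, f, by simp⟩
    · intro f hf
      obtain ⟨u, hu⟩ := isUnit_aux hn f
      have huN : u ∈ NN R := ⟨f, hu⟩
      refine ⟨⟨u, huN⟩, ?_, 0, ?_⟩
      · apply hLK
        rw [mem_LL]
        change 2 • ((u : R) - 1) = 0
        rw [hu, add_sub_cancel_left, ← mul_smul]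
        exact hf
      · change _ = (u : R) - 1 + 8 • 0
        rw [hu]; simp
    · rintro e x ⟨s, hs, q', rfl⟩
      obtain ⟨h, hh, rfl⟩ := hlift e
      have hs' : (inl s : NN R ⋊[φ] E) ∈ H := hs
      have hmem := comm_mem (⟨h, hh⟩ : H) (⟨inl s, hs'⟩ : H)
      have heq : (h * inl s * h⁻¹ * (inl s)⁻¹ : NN R ⋊[φ] E) =
          inl (h.left * φ h.right s * h.left⁻¹ * s⁻¹) := by
        ext
        · simp [mul_left, mul_right, inv_left, inv_right]
        · simp [mul_right, inv_right]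
      have hin : (inl (h.left * φ h.right s * h.left⁻¹ * s⁻¹) : NN R ⋊[φ] E) ∈ H := by
        rw [← heq]
        exact mul_mem (mul_mem (mul_mem hh hs') (inv_mem hh)) (inv_mem hs')
      have hin2 : (⟨inl (h.left * φ h.right s * h.left⁻¹ * s⁻¹), hin⟩ : H) ∈ Sq H := by
        have : (⟨inl (h.left * φ h.right s * h.left⁻¹ * s⁻¹), hin⟩ : H) =
            (⟨h, hh⟩ : H) * ⟨inl s, hs'⟩ * (⟨h, hh⟩ : H)⁻¹ * (⟨inl s, hs'⟩ : H)⁻¹ :=
          Subtype.ext heq.symm
        rw [this]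
        exact hmem
      obtain ⟨t, ht, hts⟩ := hsq _ hin hin2
      have hts2 : h.left * φ h.right s = t ^ 2 * s * h.left := by
        rw [← hts]; group
      obtain ⟨f, hf⟩ := NN_spec s
      obtain ⟨g, hg⟩ := NN_spec h.left
      obtain ⟨q, hq⟩ := NN_spec t
      obtain ⟨g', hg'⟩ := H1 h.right q'
      have hR := congrArg (fun z : NN R => ((z : Rˣ) : R)) hts2
      simp only [Subgroup.coe_mul, Units.val_mul, hφ, pow_two, hg, hf, hq, map_add, map_one,
        map_nsmul] at hR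
      refine ⟨4 • q, ⟨t, ht, 0, by rw [hq]; simp⟩, ?_⟩
      refine ⟨(q * q + 2 • (q * f) + 4 • (q * q * f) + 2 • (q * g) + 4 • (q * q * g) + f * g +
        8 • (q * f * g) + 16 • (q * q * f * g)) - g * σ h.right f + g', ?_⟩
      rw [hf, map_add, map_sub, map_add, map_one, map_nsmul, map_nsmul, hg']
      generalize σ h.right f = f' at hR ⊢
      have hR2 : 4 • f' - 4 • f = (4 • f' - 4 • f) - ((1 + 4 • g) * (1 + 4 • f') -
        (1 + 4 • q) * (1 + 4 • q) * (1 + 4 • f) * (1 + 4 • g)) := by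
        rw [hR]; simp
      have e1 : 1 + 4 • f' - 1 + 8 • (q' + 2 • g') - (1 + 4 • f - 1 + 8 • q') =
        (4 • f' - 4 • f) + 16 • g' := by noncomm_ring
      rw [e1, hR2]
      noncomm_ring
  -- conclusion
  have hKtop : K = ⊤ := by
    apply eq_top_of_sup_Sq (isPGroup_NN hn)
    rw [eq_top_iff]
    intro u _
    obtain ⟨f, hf⟩ := NN_spec u
    obtain ⟨s, hs, q, hq⟩ := hB f
    have h1 : u = s * (s⁻¹ * u) := by group
    rw [h1]
    refine mul_mem (Subgroup.mem_sup_left hs) (Subgroup.mem_sup_right (N1_le hn ?_))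
    rw [mem_N1]
    refine ⟨(↑(s : Rˣ)⁻¹ : R) * q, ?_⟩
    have h2 : ((u : Rˣ) : R) = ((s : Rˣ) : R) + 8 • q := by
      rw [hf, hq]; abel
    rw [Subgroup.coe_mul, Units.val_mul, h2, mul_add, Subgroup.coe_inv, Units.inv_mul, mul_smul_comm]
  apply hH
  rw [eq_top_iff]
  intro g _
  obtain ⟨h, hh, hr'⟩ := hlift g.right
  have : g = inl (g.left * h.left⁻¹) * h := by
    ext
    · simp
    · simp [hr']
  rw [this]
  refine mul_mem ?_ hh
  have : g.left * h.left⁻¹ ∈ K := by rw [hKtop]; trivial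
  exact this

end Main

/-- for finite 2-groups, index of squares controls the rank -/
theorem rank_lt_of_index_lt {H G : Type} [Group H] [Group G] [Finite H] [Finite G]
    (hH : IsPGroup 2 H) (h : (Sq H).index < (Sq G).index) : Group.rank H < Group.rank G := by
  obtain ⟨S, hS, hS2⟩ := burnside hH
  have h1 : Group.rank H ≤ S.card := Group.rank_le hS
  obtain ⟨T, hT1, hT2⟩ := Group.rank_spec G
  have h2 := burnside_lower T hT2
  rw [hT1] at h2
  have h3 : 2 ^ Group.rank H < 2 ^ Group.rank G :=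
    lt_of_le_of_lt (Nat.pow_le_pow_right (by norm_num) h1) (lt_of_le_of_lt hS2 (lt_of_lt_of_le h h2))
  exact (Nat.pow_lt_pow_iff_right (by norm_num)).1 h3

end Pool.Agent.W370
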